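import Pool.Agent.Run7.h736.AU.Gram

/-! Cuspidal families and their twists. -/

set_option autoImplicit false

open Filter Topology Complex ComplexConjugate Finset

namespace Run7.h736.AU

/-- The known analytic properties of the Rankin-Selberg `L`-functions of a family `π_e`, `e ∈ ι`, of unitary
cuspidal automorphic representations of the groups `GL(n_e)` over `ℚ`, any two of which are not twists of
each other by a power of `|det|`; for example the family of **all** unitary cuspidal automorphic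
representations of all `GL(n)`, `n ≥ 1`, over `ℚ` with a central character that is trivial on the positive
real numbers.  The series of `log L(s, π_e × π_e~)` converges for `s > 1`, and `L(s, π_e × π_e~)` has a
simple pole at `s = 1`; `L(s, π_e × π_e'~)` has a finite nonzero limit at every other point `1 + iτ` of the
line `Re s = 1` (Jacquet, Piatetski-Shapiro, Shalika; Moeglin, Waldspurger; Shahidi).  The finitely many
factors that are left out in `RS` have neither a zero nor a pole for `Re s ≥ 1`. -/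
structure IsCuspidal {ι : Type} (π : ι → Sys) : Prop where
  conv : ∀ e, SqS (π e).tr
  pole : ∀ e, ∃ a : ℂ, a ≠ 0 ∧
    Tendsto (fun ε : ℝ => (ε : ℂ) * RS (π e) (π e) (1 + ε)) (𝓝[>] 0) (𝓝 a)
  regular : ∀ (e e' : ι) (τ : ℝ), (e ≠ e' ∨ τ ≠ 0) → ∃ a : ℂ, a ≠ 0 ∧
    Tendsto (fun ε : ℝ => RS (π e) (π e') (1 + ε + τ * I)) (𝓝[>] 0) (𝓝 a)

theorem norm_cpow_I (p : Nat.Primes) (τ : ℝ) : ‖((p : ℕ) : ℂ) ^ ((τ : ℂ) * I)‖ = 1 := by
  rw [Complex.norm_natCast_cpow_of_pos p.2.pos]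
  simp

/-- the twist by `|det| ^ (-iτ)` -/
noncomputable def Sys.twist (S : Sys) (τ : ℝ) : Sys where
  bad := S.bad
  rank := S.rank
  ev := fun p => (S.ev p).map fun z => ((p : ℕ) : ℂ) ^ ((τ : ℂ) * I) * z
  card := fun p hp => by rw [Multiset.card_map, S.card p hp]
  bound := by
    intro p hp z hz
    obtain ⟨y, hy, rfl⟩ := Multiset.mem_map.1 hz
    rw [norm_mul, norm_cpow_I, one_mul]
    exact S.bound p hp y hy

theorem twist_tr (S : Sys) (τ : ℝ) (q : Nat.Primes × ℕ) :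
    (S.twist τ).tr q = (((q.1 : ℕ) : ℂ) ^ ((τ : ℂ) * I)) ^ (q.2 + 1) * S.tr q := by
  unfold Sys.tr Sys.twist
  simp only
  split_ifs with h
  · simp
  · rw [ps_smul]

theorem twist_norm (S : Sys) (τ : ℝ) (q : Nat.Primes × ℕ) : ‖(S.twist τ).tr q‖ = ‖S.tr q‖ := by
  rw [twist_tr, norm_mul, norm_pow, norm_cpow_I, one_pow, one_mul]

theorem twist_sqs {S : Sys} (h : SqS S.tr) (τ : ℝ) : SqS (S.twist τ).tr := by
  intro ε hε
  refine (h ε hε).congr fun q => ?_
  rw [twist_norm]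

theorem conj_cpow_I (p : Nat.Primes) (τ : ℝ) :
    conj (((p : ℕ) : ℂ) ^ ((τ : ℂ) * I)) = ((p : ℕ) : ℂ) ^ (-((τ : ℂ) * I)) := by
  have hp : ((p : ℕ) : ℂ) ≠ 0 := by exact_mod_cast p.2.ne_zero
  rw [Complex.cpow_def_of_ne_zero hp, Complex.cpow_def_of_ne_zero hp, ← Complex.exp_conj,
    map_mul, map_mul, Complex.conj_I, Complex.conj_ofReal, ← Complex.natCast_log,
    Complex.conj_ofReal]
  congr 1
  ring

theorem RS_twist (S T : Sys) (τ τ' ε : ℝ) :
    RS (S.twist τ) (T.twist τ') (1 + ε) = RS S T (1 + ε + ((τ' - τ : ℝ) : ℂ) * I) := by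
  unfold RS
  refine tprod_congr fun p => ?_
  have hb : (S.twist τ).bad ∪ (T.twist τ').bad = S.bad ∪ T.bad := rfl
  rw [hb]
  split_ifs with h
  · rfl
  unfold fac Sys.twist
  simp only
  have e1 : ((T.ev p).map fun z => ((p : ℕ) : ℂ) ^ ((τ' : ℂ) * I) * z).map conj =
      ((T.ev p).map conj).map fun z => ((p : ℕ) : ℂ) ^ (-((τ' : ℂ) * I)) * z := by
    rw [Multiset.map_map, Multiset.map_map]
    refine Multiset.map_congr rfl fun z _ => ?_
    simp only [Function.comp_apply, map_mul, conj_cpow_I]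
  rw [e1, ten_smul, Multiset.map_map]
  congr 2
  refine Multiset.map_congr rfl fun z _ => ?_
  have hp : ((p : ℕ) : ℂ) ≠ 0 := by exact_mod_cast p.2.ne_zero
  simp only [Function.comp_apply]
  have e2 : ((p : ℕ) : ℂ) ^ (-(1 + (ε : ℂ) + ((τ' - τ : ℝ) : ℂ) * I)) =
      ((p : ℕ) : ℂ) ^ ((τ : ℂ) * I) * ((p : ℕ) : ℂ) ^ (-((τ' : ℂ) * I)) *
        ((p : ℕ) : ℂ) ^ (-(1 + (ε : ℂ))) := by
    rw [← Complex.cpow_add _ _ hp, ← Complex.cpow_add _ _ hp]
    congr 1
    push_cast
    ring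
  rw [e2]
  ring

section
variable {ι : Type} {π : ι → Sys}

/-- the vector of the twist -/
noncomputable def vec (π : ι → Sys) (x : ι × ℝ) : Nat.Primes × ℕ → ℂ := ((π x.1).twist x.2).tr

theorem vec_sqs (h : IsCuspidal π) (x : ι × ℝ) : SqS (vec π x) := twist_sqs (h.conv x.1) x.2

/-- **The Gram matrix.** -/
theorem gram [DecidableEq (ι × ℝ)] (h : IsCuspidal π) (x y : ι × ℝ) :
    Tendsto (fun ε => (cip ε (vec π x) (vec π y)).re / La ε) (𝓝[>] 0)
      (𝓝 (if x = y then 1 else 0)) := by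
  have hlog : ∀ ε : ℝ, 0 < ε → (cip ε (vec π x) (vec π y)).re =
      Real.log ‖RS (π x.1) (π y.1) (1 + ε + ((y.2 - x.2 : ℝ) : ℂ) * I)‖ := by
    intro ε hε
    unfold vec
    rw [← log_RS (twist_sqs (h.conv x.1) x.2) (twist_sqs (h.conv y.1) y.2) hε, RS_twist]
  by_cases hxy : x = y
  · subst hxy
    rw [if_pos rfl]
    obtain ⟨a, ha, h1⟩ := h.pole x.1
    have h2 := div_log (h1.norm.log (norm_ne_zero_iff.2 ha))
    have h3 := h2.add_const 1
    rw [zero_add] at h3
    refine h3.congr' ?_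
    have hL : ∀ᶠ ε : ℝ in 𝓝[>] 0, 0 < Real.log (1 / ε) := log_atTop.eventually_gt_atTop 0
    have hne : ∀ᶠ ε : ℝ in 𝓝[>] 0, (ε : ℂ) * RS (π x.1) (π x.1) (1 + ε) ≠ 0 :=
      h1.eventually_ne ha
    filter_upwards [self_mem_nhdsWithin, hL, hne] with ε h4 h5 h6
    have hε : 0 < ε := h4
    rw [hlog ε hε]
    have e1 : (1 : ℂ) + ε + ((x.2 - x.2 : ℝ) : ℂ) * I = 1 + ε := by simp
    rw [e1, norm_mul, Real.log_mul (norm_ne_zero_iff.2 (left_ne_zero_of_mul h6))
      (norm_ne_zero_iff.2 (right_ne_zero_of_mul h6)), Complex.norm_real, Real.norm_eq_abs,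
      abs_of_pos hε]
    unfold La
    have e2 : Real.log (1 / ε) = - Real.log ε := by rw [one_div, Real.log_inv]
    rw [e2] at h5 ⊢
    have h7 : Real.log ε ≠ 0 := fun h8 => by rw [h8] at h5; simp at h5
    field_simp
    ring
  · rw [if_neg hxy]
    have h0 : x.1 ≠ y.1 ∨ y.2 - x.2 ≠ 0 := by
      by_contra hc
      rw [not_or, not_not, not_not] at hc
      exact hxy (Prod.ext hc.1 (by linarith [hc.2]))
    obtain ⟨a, ha, h1⟩ := h.regular x.1 y.1 (y.2 - x.2) h0
    have h2 := div_log (h1.norm.log (norm_ne_zero_iff.2 ha))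
    refine h2.congr' ?_
    filter_upwards [self_mem_nhdsWithin] with ε hε
    rw [hlog ε hε]
    rfl

end

end Run7.h736.AU
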