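import Pool.Agent.Run7.h736.AU.Main

/-! The equality case, pairs of motives, isobaric sums. -/

set_option autoImplicit false

open Filter Topology Complex ComplexConjugate Finset Polynomial

namespace Run7.h736.AU

open Pool.Agent.Y149.CM (LFun)
open Pool.Agent.Y149.TL (Motive IsEuler edge size HasOrder)

section
variable {ι : Type} {π : ι → Sys}

theorem pair_order (h : IsCuspidal π) {M : Motive} {x : ι × ℝ} {B : Nat.Primes → ℂ[X]}
    (hB : IsTwist M (π x.1) B) {r : ℤ} (hr : HasOrder M.weight B x.2 r) :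
    Tendsto (fun ε => (cip ε (msys M).tr (vec π x)).re / La ε) (𝓝[>] 0) (𝓝 (-r)) := by
  have h1 := (size_order hr).sub (size_twist (h.conv x.1) hB x.2).2
  rw [sub_zero] at h1
  refine h1.congr fun ε => ?_
  unfold vec
  ring

/-- **The distance to the sum of the twists.** -/
theorem distance_mean (h : IsCuspidal π) (M : Motive) {D : Nat.Primes → ℂ[X]}
    (hD : IsSquare M D) {k : ℤ} (hk : HasOrder (2 * M.weight) D 0 (-k)) (S : Finset (ι × ℝ))
    {B : ι × ℝ → Nat.Primes → ℂ[X]} (hB : ∀ x ∈ S, IsTwist M (π x.1) (B x)) {r : ι × ℝ → ℤ}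
    (hr : ∀ x ∈ S, HasOrder M.weight (B x) x.2 (r x)) :
    MeanSqLE (fun p => ntr M p + ∑ x ∈ S, (r x : ℂ) * atr π x p) (k - ∑ x ∈ S, r x ^ 2 : ℤ) := by
  classical
  have hk' : Tendsto (fun ε => (cip ε (msys M).tr (msys M).tr).re / La ε) (𝓝[>] 0) (𝓝 (k : ℝ)) := by
    have h1 := (size_order hk).sub (size_square hD).2
    rw [sub_zero] at h1
    push_cast at h1
    rw [neg_neg] at h1
    refine h1.congr fun ε => ?_
    ring
  have h1 := distance S (msys_sqs M) (fun x _ => vec_sqs h x) (n := fun x => -(r x : ℝ)) hk'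
    (fun x hx => pair_order h (hB x hx) (hr x hx)) (fun x _ y _ => gram h x y)
  have e1 : (k : ℝ) - ∑ x ∈ S, (-(r x : ℝ)) ^ 2 = ((k - ∑ x ∈ S, r x ^ 2 : ℤ) : ℝ) := by
    push_cast
    simp only [neg_sq]
  rw [e1] at h1
  set u : Nat.Primes × ℕ → ℂ := fun q => (msys M).tr q + ∑ x ∈ S, (r x : ℂ) * vec π x q with hu
  have e2 : ∀ q, (msys M).tr q - ∑ x ∈ S, ((-(r x : ℝ) : ℝ) : ℂ) * vec π x q = u q := by
    intro q
    simp only [hu]
    rw [sub_eq_add_neg, ← Finset.sum_neg_distrib]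
    congr 1
    refine Finset.sum_congr rfl fun x _ => ?_
    push_cast
    ring
  simp only [e2] at h1
  have hsq : SqS u := (msys_sqs M).add (SqS.sum S fun x _ => (vec_sqs h x).smul (r x : ℂ))
  refine mean_of_norm hsq ((msys M).bad ∪ S.biUnion fun x => (π x.1).bad) (fun p hp => ?_) h1
  rw [Finset.mem_union, not_or, Finset.mem_biUnion] at hp
  simp only [hu]
  rw [msys_ntr hp.1]
  congr 1
  refine Finset.sum_congr rfl fun x hx => ?_
  rw [vec_atr fun h3 => hp.2 ⟨x, hx, h3⟩]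

/-- **In the case of equality all other twists are small, without continuation.** -/
theorem equality_rest (h : IsCuspidal π) (M : Motive) {D : Nat.Primes → ℂ[X]}
    (hD : IsSquare M D) {k : ℤ} (hk : HasOrder (2 * M.weight) D 0 (-k)) (S : Finset (ι × ℝ))
    {B : ι × ℝ → Nat.Primes → ℂ[X]} (hB : ∀ x ∈ S, IsTwist M (π x.1) (B x)) {r : ι × ℝ → ℤ}
    (hr : ∀ x ∈ S, HasOrder M.weight (B x) x.2 (r x)) (heq : k ≤ ∑ x ∈ S, r x ^ 2)
    {y : ι × ℝ} (hy : y ∉ S) {C : Nat.Primes → ℂ[X]} (hC : IsTwist M (π y.1) C) :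
    Tendsto (fun ε => size M.weight C y.2 ε) (𝓝[>] 0) (𝓝 0) := by
  classical
  have hk' : Tendsto (fun ε : ℝ => size (2 * M.weight) D 0 ε) (𝓝[>] 0) (𝓝 (k : ℝ)) := by
    have := size_order hk
    simpa using this
  have h2 : Tendsto (fun ε : ℝ => ∑ x ∈ S, size M.weight (B x) x.2 ε ^ 2) (𝓝[>] 0)
      (𝓝 (∑ x ∈ S, (-(r x) : ℝ) ^ 2)) :=
    tendsto_finsetSum _ fun x hx => (size_order (hr x hx)).pow 2
  simp only [neg_sq] at h2
  have heq' : (k : ℝ) ≤ ∑ x ∈ S, (r x : ℝ) ^ 2 := by exact_mod_cast heq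
  rw [Metric.tendsto_nhds]
  intro δ hδ
  set η : ℝ := δ ^ 2 / 4 with hη
  have hη0 : 0 < η := by positivity
  set B' : ι × ℝ → Nat.Primes → ℂ[X] := fun x => if x = y then C else B x with hB'
  have hB'2 : ∀ x ∈ insert y S, IsTwist M (π x.1) (B' x) := by
    intro x hx
    simp only [hB']
    split_ifs with h3
    · rw [h3]
      exact hC
    · exact hB x ((Finset.mem_insert.1 hx).resolve_left h3)
  filter_upwards [one_mean_square h M hD (insert y S) hB'2 hη0,
    hk'.eventually (gt_mem_nhds (show (k : ℝ) < k + η by linarith)),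
    h2.eventually (lt_mem_nhds (show (∑ x ∈ S, (r x : ℝ) ^ 2) - η < ∑ x ∈ S, (r x : ℝ) ^ 2 by
      linarith))] with ε g1 g2 g3
  have g4 := g1.1
  rw [Finset.sum_insert hy] at g4
  have e1 : B' y = C := by simp [hB']
  have e2 : ∑ x ∈ S, size M.weight (B' x) x.2 ε ^ 2 = ∑ x ∈ S, size M.weight (B x) x.2 ε ^ 2 := by
    refine Finset.sum_congr rfl fun x hx => ?_
    have : x ≠ y := fun h3 => hy (h3 ▸ hx)
    simp [hB', this]
  rw [e1, e2] at g4
  rw [dist_zero_right, Real.norm_eq_abs]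
  have g5 : size M.weight C y.2 ε ^ 2 < δ ^ 2 := by
    have : (4 : ℝ) * η = δ ^ 2 := by rw [hη]; ring
    linarith
  exact abs_lt_of_sq_lt_sq g5 hδ.le

/-- **Two motives.** -/
theorem two_mean (h : IsCuspidal π) (M M' : Motive) {K : ℝ}
    (hK : MeanSqLE (fun p => ntr M p - ntr M' p) K) (S : Finset (ι × ℝ))
    {B B' : ι × ℝ → Nat.Primes → ℂ[X]} (hB : ∀ x ∈ S, IsTwist M (π x.1) (B x))
    (hB' : ∀ x ∈ S, IsTwist M' (π x.1) (B' x)) {η : ℝ} (hη : 0 < η) :
    ∀ᶠ ε : ℝ in 𝓝[>] 0, ∑ x ∈ S, (size M.weight (B x) x.2 ε - size M'.weight (B' x) x.2 ε) ^ 2 ≤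
      K + η := by
  classical
  set u : Nat.Primes × ℕ → ℂ := fun q => (msys M).tr q + (-1) * (msys M').tr q with hu
  have hsq : SqS u := (msys_sqs M).add ((msys_sqs M').smul (-1))
  have hi : Hi u := (hi_bdd (msys_tr_le M)).add ((hi_bdd (msys_tr_le M')).smul (-1))
  have hn : ∀ η : ℝ, 0 < η → ∀ᶠ ε : ℝ in 𝓝[>] 0, (cip ε u u).re / La ε ≤ K + η := by
    intro η hη
    refine norm_of_mean hsq hi ((msys M).bad ∪ (msys M').bad) (fun p hp => ?_) hK hη
    rw [Finset.mem_union, not_or] at hp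
    simp only [hu]
    rw [msys_ntr hp.1, msys_ntr hp.2]
    ring
  have hc := core h hsq hn S
    (a := fun x ε => size M.weight (B x) x.2 ε - size M'.weight (B' x) x.2 ε) (fun x hx => ?_)
    (half_pos hη)
  · filter_upwards [hc, hn (η / 2) (half_pos hη)] with ε h1 h2
    linarith
  · have h1 := ((size_twist (h.conv x.1) (hB x hx) x.2).2).sub
      (size_twist (h.conv x.1) (hB' x hx) x.2).2
    rw [sub_zero] at h1
    refine h1.congr' ?_
    filter_upwards [self_mem_nhdsWithin] with ε h3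
    have hε : 0 < ε := h3
    have e1 : cip ε u (vec π x) = cip ε (msys M).tr (vec π x) - cip ε (msys M').tr (vec π x) := by
      unfold cip
      rw [← (summable_pair (msys_sqs M) (vec_sqs h x) hε).tsum_sub
        (summable_pair (msys_sqs M') (vec_sqs h x) hε)]
      refine tsum_congr fun q => ?_
      simp only [hu]
      ring
    rw [e1, Complex.sub_re]
    unfold vec
    ring

theorem two_order (h : IsCuspidal π) (M M' : Motive) {K : ℝ}
    (hK : MeanSqLE (fun p => ntr M p - ntr M' p) K) (S : Finset (ι × ℝ))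
    {B B' : ι × ℝ → Nat.Primes → ℂ[X]} (hB : ∀ x ∈ S, IsTwist M (π x.1) (B x))
    (hB' : ∀ x ∈ S, IsTwist M' (π x.1) (B' x)) {r r' : ι × ℝ → ℤ}
    (hr : ∀ x ∈ S, HasOrder M.weight (B x) x.2 (r x))
    (hr' : ∀ x ∈ S, HasOrder M'.weight (B' x) x.2 (r' x)) :
    ∑ x ∈ S, ((r x - r' x : ℤ) : ℝ) ^ 2 ≤ K := by
  refine le_of_forall_pos_le_add fun η hη => ?_
  have h2 : Tendsto (fun ε : ℝ => ∑ x ∈ S, (size M.weight (B x) x.2 ε -
      size M'.weight (B' x) x.2 ε) ^ 2) (𝓝[>] 0) (𝓝 (∑ x ∈ S, (-(r x : ℝ) - -(r' x : ℝ)) ^ 2)) :=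
    tendsto_finsetSum _ fun x hx => ((size_order (hr x hx)).sub (size_order (hr' x hx))).pow 2
  have e1 : ∑ x ∈ S, (-(r x : ℝ) - -(r' x : ℝ)) ^ 2 = ∑ x ∈ S, ((r x - r' x : ℤ) : ℝ) ^ 2 := by
    refine Finset.sum_congr rfl fun x _ => ?_
    push_cast
    ring
  rw [e1] at h2
  exact le_of_tendsto h2 (two_mean h M M' hK S hB hB' hη)

/-- **Agreement with an isobaric sum.** -/
theorem iso_order (h : IsCuspidal π) (M : Motive) (T : Finset (ι × ℝ)) (n : ι × ℝ → ℤ)
    (hT : ∀ x ∈ T, Hi (π x.1).tr) {K : ℝ}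
    (hK : MeanSqLE (fun p => ntr M p - ∑ x ∈ T, (n x : ℂ) * atr π x p) K) (S : Finset (ι × ℝ))
    {B : ι × ℝ → Nat.Primes → ℂ[X]} (hB : ∀ x ∈ S, IsTwist M (π x.1) (B x)) {r : ι × ℝ → ℤ}
    (hr : ∀ x ∈ S, HasOrder M.weight (B x) x.2 (r x)) (hn : ∀ x ∈ S, x ∉ T → n x = 0) :
    ∑ x ∈ S, ((r x + n x : ℤ) : ℝ) ^ 2 ≤ K := by
  classical
  set u : Nat.Primes × ℕ → ℂ := fun q => (msys M).tr q + ∑ x ∈ T, (-(n x : ℂ)) * vec π x q with hu
  have hsq : SqS u := (msys_sqs M).add (SqS.sum T fun x _ => (vec_sqs h x).smul _)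
  have hi : Hi u := (hi_bdd (msys_tr_le M)).add (Hi.sum T fun x hx => (vec_hi (hT x hx)).smul _)
  have hnorm : ∀ η : ℝ, 0 < η → ∀ᶠ ε : ℝ in 𝓝[>] 0, (cip ε u u).re / La ε ≤ K + η := by
    intro η hη
    refine norm_of_mean hsq hi ((msys M).bad ∪ T.biUnion fun x => (π x.1).bad)
      (fun p hp => ?_) hK hη
    rw [Finset.mem_union, not_or, Finset.mem_biUnion] at hp
    simp only [hu]
    rw [msys_ntr hp.1, sub_eq_add_neg, ← Finset.sum_neg_distrib]
    congr 1
    refine Finset.sum_congr rfl fun x hx => ?_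
    rw [vec_atr fun h3 => hp.2 ⟨x, hx, h3⟩]
    ring
  -- the pairings
  have hpair : ∀ y ∈ S, Tendsto (fun ε => (cip ε u (vec π y)).re / La ε) (𝓝[>] 0)
      (𝓝 (-((r y + n y : ℤ) : ℝ))) := by
    intro y hy
    have h1 := (pair_order h (hB y hy) (hr y hy)).add
      (tendsto_finsetSum T fun x _ => (gram h x y).const_mul (-(n x : ℝ)))
    have e0 : -(r y : ℝ) + ∑ x ∈ T, -(n x : ℝ) * (if x = y then (1 : ℝ) else 0) =
        -((r y + n y : ℤ) : ℝ) := by
      have : ∑ x ∈ T, -(n x : ℝ) * (if x = y then (1 : ℝ) else 0) = -(n y : ℝ) := by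
        simp only [mul_ite, mul_one, mul_zero]
        rw [Finset.sum_ite_eq' T y (fun x => -(n x : ℝ))]
        split_ifs with h3
        · rfl
        · rw [hn y hy h3]
          simp
      rw [this]
      push_cast
      ring
    rw [e0] at h1
    refine h1.congr' ?_
    filter_upwards [self_mem_nhdsWithin] with ε h3
    have hε : 0 < ε := h3
    have e1 : cip ε u (vec π y) = cip ε (msys M).tr (vec π y) +
        ∑ x ∈ T, (-(n x : ℂ)) * cip ε (vec π x) (vec π y) := by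
      have s1 := (summable_pair (msys_sqs M) (vec_sqs h y) hε).hasSum
      have s2 : HasSum (fun q => ∑ x ∈ T, (-(n x : ℂ)) * ((om ε q : ℂ) *
          (vec π x q * conj (vec π y q)))) (∑ x ∈ T, (-(n x : ℂ)) * cip ε (vec π x) (vec π y)) :=
        hasSum_sum fun x _ => (summable_pair (vec_sqs h x) (vec_sqs h y) hε).hasSum.mul_left _
      have s3 := s1.add s2
      have e2 : (fun q => (om ε q : ℂ) * ((msys M).tr q * conj (vec π y q)) +
          ∑ x ∈ T, (-(n x : ℂ)) * ((om ε q : ℂ) * (vec π x q * conj (vec π y q)))) =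
          fun q => (om ε q : ℂ) * (u q * conj (vec π y q)) := by
        funext q
        simp only [hu]
        rw [add_mul, mul_add, Finset.sum_mul, Finset.mul_sum]
        congr 1
        refine Finset.sum_congr rfl fun x _ => ?_
        ring
      rw [e2] at s3
      exact s3.tsum_eq
    rw [e1, Complex.add_re, Complex.re_sum, add_div, Finset.sum_div]
    congr 1
    refine Finset.sum_congr rfl fun x _ => ?_
    have e3 : ((-(n x : ℂ)) * cip ε (vec π x) (vec π y)).re =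
        -(n x : ℝ) * (cip ε (vec π x) (vec π y)).re := by
      have : (-(n x : ℂ)) = ((-(n x : ℝ) : ℝ) : ℂ) := by push_cast; ring
      rw [this, Complex.re_ofReal_mul]
    rw [e3]
    ring
  refine le_of_forall_pos_le_add fun η hη => ?_
  have h2 : Tendsto (fun ε : ℝ => ∑ x ∈ S, ((cip ε u (vec π x)).re / La ε) ^ 2) (𝓝[>] 0)
      (𝓝 (∑ x ∈ S, (-((r x + n x : ℤ) : ℝ)) ^ 2)) :=
    tendsto_finsetSum _ fun x hx => (hpair x hx).pow 2
  simp only [neg_sq] at h2
  have h3 := core h hsq hnorm S (a := fun x ε => (cip ε u (vec π x)).re / La ε)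
    (fun x _ => by simp) (half_pos hη)
  refine le_of_tendsto h2 ?_
  filter_upwards [h3, hnorm (η / 2) (half_pos hη)] with ε h4 h5
  linarith

/-- agreement outside a set of primes -/
theorem mean_of_density {f : Nat.Primes → ℂ} {A : ℝ} {P : Set Nat.Primes} {δ : ℝ}
    (hP : MeanSqLE (P.indicator 1) δ) (hA : ∀ᶠ p in cofinite, ‖f p‖ ≤ A)
    (hf : ∀ᶠ p in cofinite, p ∉ P → f p = 0) : MeanSqLE f (A ^ 2 * δ) := by
  classical
  set F : Finset Nat.Primes := (eventually_cofinite.1 (hA.and hf)).toFinset with hF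
  have hgood : ∀ p, p ∉ F → ‖f p‖ ≤ A ∧ (p ∉ P → f p = 0) := by
    intro p hp
    rw [hF, Set.Finite.mem_toFinset, Set.mem_ofPred_eq, not_not] at hp
    exact hp
  intro η hη
  set C : ℝ := ∑ p ∈ F, ‖f p‖ ^ 2 with hC
  have hlim : Tendsto (fun ε => C / La ε) (𝓝[>] 0) (𝓝 0) := div_log tendsto_const_nhds
  have hη' : 0 < η / (2 * (A ^ 2 + 1)) := by positivity
  filter_upwards [hP _ hη', hlim.eventually (gt_mem_nhds (half_pos hη)),
    self_mem_nhdsWithin, log_atTop.eventually_gt_atTop 0] with ε h1 h2 h3 h4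
  have hε : 0 < ε := h3
  have hL : 0 < La ε := h4
  have c1 : HasSum (fun p => if p ∈ F then ‖f p‖ ^ 2 else 0) C := by
    have h0 : HasSum (fun p => if p ∈ F then ‖f p‖ ^ 2 else 0)
        (∑ p ∈ F, if p ∈ F then ‖f p‖ ^ 2 else 0) :=
      hasSum_sum_of_ne_finset_zero (fun p hp => by simp [hp])
    rwa [Finset.sum_congr rfl (fun p hp => by
      show (if p ∈ F then ‖f p‖ ^ 2 else 0) = ‖f p‖ ^ 2
      simp [hp])] at h0
  have c2 := (h1.1.hasSum.mul_left (A ^ 2)).add c1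
  have hle : ∀ p : Nat.Primes, ((p : ℕ) : ℝ) ^ (-(1 + ε)) * ‖f p‖ ^ 2 ≤
      A ^ 2 * (((p : ℕ) : ℝ) ^ (-(1 + ε)) * ‖P.indicator (1 : Nat.Primes → ℂ) p‖ ^ 2) +
        (if p ∈ F then ‖f p‖ ^ 2 else 0) := by
    intro p
    have c3 : (0 : ℝ) ≤ ((p : ℕ) : ℝ) ^ (-(1 + ε)) := by positivity
    split_ifs with hp
    · have c4 := om_le_one hε.le (p, 0)
      rw [om_zero] at c4
      have c5 : ((p : ℕ) : ℝ) ^ (-(1 + ε)) * ‖f p‖ ^ 2 ≤ 1 * ‖f p‖ ^ 2 :=
        mul_le_mul_of_nonneg_right c4 (by positivity)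
      have c6 : 0 ≤ A ^ 2 * (((p : ℕ) : ℝ) ^ (-(1 + ε)) *
        ‖P.indicator (1 : Nat.Primes → ℂ) p‖ ^ 2) := by positivity
      linarith
    · obtain ⟨g1, g2⟩ := hgood p hp
      by_cases hpP : p ∈ P
      · rw [Set.indicator_of_mem hpP]
        simp only [Pi.one_apply, norm_one, one_pow, mul_one, add_zero]
        have g3 : ‖f p‖ ^ 2 ≤ A ^ 2 := pow_le_pow_left₀ (norm_nonneg _) g1 2
        nlinarith
      · rw [g2 hpP, Set.indicator_of_notMem hpP]
        simp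
  have hsum : Summable (fun p : Nat.Primes => ((p : ℕ) : ℝ) ^ (-(1 + ε)) * ‖f p‖ ^ 2) :=
    Summable.of_nonneg_of_le (fun p => by positivity) hle c2.summable
  refine ⟨hsum, ?_⟩
  have d1 := hsum.tsum_le_tsum hle c2.summable
  rw [c2.tsum_eq] at d1
  have h7 : Real.log (1 / ε) = La ε := rfl
  have h8 := h1.2
  rw [h7] at h8 ⊢
  rw [div_lt_iff₀ hL] at h2
  have h9 : A ^ 2 * (∑' p : Nat.Primes, ((p : ℕ) : ℝ) ^ (-(1 + ε)) *
      ‖P.indicator (1 : Nat.Primes → ℂ) p‖ ^ 2) ≤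
      A ^ 2 * ((δ + η / (2 * (A ^ 2 + 1))) * La ε) := mul_le_mul_of_nonneg_left h8 (sq_nonneg A)
  have h10 : A ^ 2 * (η / (2 * (A ^ 2 + 1))) ≤ η / 2 := by
    rw [mul_div_assoc', div_le_div_iff₀ (by positivity) (by norm_num)]
    nlinarith [sq_nonneg A]
  nlinarith

theorem ntr_le (M : Motive) : ∀ᶠ p in cofinite, ‖ntr M p‖ ≤ M.rank := by
  have h1 : {p : Nat.Primes | p ∈ (msys M).bad}.Finite := (msys M).bad.finite_toSet
  have h2 : ∀ᶠ p : Nat.Primes in cofinite, p ∉ (msys M).bad := by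
    rw [eventually_cofinite]
    simpa using h1
  filter_upwards [h2] with p hp
  rw [← msys_ntr hp]
  exact msys_tr_le M _

/-- tempered representations -/
theorem hi_of_tempered {S : Sys} (h : ∀ p, p ∉ S.bad → ∀ z ∈ S.ev p, ‖z‖ ≤ 1) : Hi S.tr :=
  hi_bdd (tr_le_of_tempered h)

end

end Run7.h736.AU
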