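import Pool.Agent.Run7.h736.AU.Fin

/-! The statement for isobaric sums. -/

set_option autoImplicit false

open Filter Topology Complex ComplexConjugate Finset Polynomial

namespace Run7.h736.AU

open Pool.Agent.Y149.CM (LFun)
open Pool.Agent.Y149.TL (Motive IsEuler edge size HasOrder)

section
variable {ι : Type} {π : ι → Sys}

theorem norm_atr {x : ι × ℝ} (h : ∀ p, p ∉ (π x.1).bad → ∀ z ∈ (π x.1).ev p, ‖z‖ ≤ 1)
    {p : Nat.Primes} (hp : p ∉ (π x.1).bad) : ‖atr π x p‖ ≤ (π x.1).rank := by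
  have h1 := norm_ps_le (s := (π x.1).ev p) (r := 1) (h p hp) 1
  unfold atr
  rw [norm_mul, norm_cpow_I, mul_one, ← ps_one]
  rw [one_pow, mul_one, (π x.1).card p hp] at h1
  exact h1

theorem iso_single (h : IsCuspidal π) (M : Motive) (T : Finset (ι × ℝ)) (n : ι × ℝ → ℤ)
    (hn : ∀ x, x ∉ T → n x = 0) (hT : ∀ x ∈ T, Hi (π x.1).tr) {K : ℝ}
    (hK : MeanSqLE (fun p => ntr M p - ∑ x ∈ T, (n x : ℂ) * atr π x p) K) (hK1 : K < 1)
    (x : ι × ℝ) {B : Nat.Primes → ℂ[X]} (hB : IsTwist M (π x.1) B) {r : ℤ}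
    (hr : HasOrder M.weight B x.2 r) : r = -n x := by
  have h1 := iso_order h M T n hT hK {x} (B := fun _ => B) (r := fun _ => r)
    (fun y hy => by rw [Finset.mem_singleton.1 hy]; exact hB)
    (fun y hy => by rw [Finset.mem_singleton.1 hy]; exact hr) (fun y _ hy => hn y hy)
  rw [Finset.sum_singleton] at h1
  have h2 : (((r + n x) ^ 2 : ℤ) : ℝ) < 1 := by
    push_cast at h1 ⊢
    linarith
  have h3 : (r + n x) ^ 2 < 1 := by exact_mod_cast h2
  have h4 : r + n x = 0 := by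
    by_contra h0
    have : 0 < (r + n x) ^ 2 := by positivity
    omega
  omega

theorem iso_density (h : IsCuspidal π) (M : Motive) (T : Finset (ι × ℝ)) (n : ι × ℝ → ℤ)
    (hn : ∀ x, x ∉ T → n x = 0)
    (hT : ∀ x ∈ T, ∀ p, p ∉ (π x.1).bad → ∀ z ∈ (π x.1).ev p, ‖z‖ ≤ 1) {P : Set Nat.Primes}
    {δ : ℝ} (hP : MeanSqLE (P.indicator 1) δ)
    (hf : ∀ᶠ p in cofinite, p ∉ P → ntr M p = ∑ x ∈ T, (n x : ℂ) * atr π x p)
    (hδ : ((M.rank : ℝ) + ∑ x ∈ T, |(n x : ℝ)| * (π x.1).rank) ^ 2 * δ < 1)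
    (x : ι × ℝ) {B : Nat.Primes → ℂ[X]} (hB : IsTwist M (π x.1) B) {r : ℤ}
    (hr : HasOrder M.weight B x.2 r) : r = -n x := by
  classical
  refine iso_single h M T n hn (fun y hy => hi_of_tempered (hT y hy))
    (mean_of_density hP (A := (M.rank : ℝ) + ∑ x ∈ T, |(n x : ℝ)| * (π x.1).rank) ?_ ?_)
    hδ x hB hr
  · have h2 : ∀ᶠ p : Nat.Primes in cofinite, p ∉ T.biUnion fun x => (π x.1).bad := by
      rw [eventually_cofinite]
      simp only [not_not]
      exact Finset.finite_toSet _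
    filter_upwards [ntr_le M, h2] with p h3 h4
    rw [Finset.mem_biUnion] at h4
    refine (norm_sub_le _ _).trans (add_le_add h3 ((norm_sum_le _ _).trans
      (Finset.sum_le_sum fun y hy => ?_)))
    rw [norm_mul]
    have h5 : ‖((n y : ℤ) : ℂ)‖ = |(n y : ℝ)| := by
      rw [Complex.norm_intCast]
    rw [h5]
    exact mul_le_mul_of_nonneg_left (norm_atr (hT y hy) fun h6 => h4 ⟨y, hy, h6⟩) (abs_nonneg _)
  · filter_upwards [hf] with p h3 h4
    rw [h3 h4, sub_self]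

end

end Run7.h736.AU
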