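import Pool.Agent.Run7.h736.AU.Fin2

/-! Pairs of motives, the inequality of Cauchy and Schwarz. -/

set_option autoImplicit false

open Filter Topology Complex ComplexConjugate Finset Polynomial

namespace Run7.h736.AU

open Pool.Agent.Y149.CM (LFun)
open Pool.Agent.Y149.TL (Motive IsEuler edge size HasOrder)
open Pool.Agent.Y149.PK (tens)

/-- The polynomials `D p` are the Euler factors of `L(M ⊗ M'^∨, s - w')`, `w'` the weight of `M'`: for
almost all primes `p`, `D_p(z) = ∏ (1 - α conj(α') z)`, the product over the eigenvalues `α` of Frobenius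
on `M` and `α'` on `M'`; the numbers `conj(α') = p^w' / α'` are the eigenvalues on `M'^∨(-w')`. -/
def IsPairing (M M' : Motive) (D : Nat.Primes → ℂ[X]) : Prop :=
  IsEuler (M.weight + M'.weight) (fun p => tens (M.frob p) ((M'.frob p).map conj)) D

theorem pairing_factor {M M' : Motive} {D : Nat.Primes → ℂ[X]} {p : Nat.Primes} {τ : ℝ}
    (h : ∀ z : ℂ, (D p).eval z = ((tens (M.frob p) ((M'.frob p).map conj)).map
      fun α => 1 - α * z).prod) (ε : ℝ) :
    ((D p).eval (((p : ℕ) : ℂ) ^ (-(edge (M.weight + M'.weight) τ + ε))))⁻¹ =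
      fac (msys M) ((msys M').twist τ) p (1 + ε) := by
  have hp : ((p : ℕ) : ℂ) ≠ 0 := by exact_mod_cast p.2.ne_zero
  rw [h]
  unfold fac
  congr 1
  have e1 : (((msys M').twist τ).ev p).map conj =
      ((M'.frob p).map conj).map fun z => ((p : ℕ) : ℂ) ^ (-((τ : ℂ) * I)) *
        nrm M'.weight p * z := by
    have e0 : ((msys M').twist τ).ev p =
        ((M'.frob p).map fun z => nrm M'.weight p * z).map
          fun z => ((p : ℕ) : ℂ) ^ ((τ : ℂ) * I) * z := rfl
    rw [e0, Multiset.map_map, Multiset.map_map, Multiset.map_map]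
    refine Multiset.map_congr rfl fun z _ => ?_
    simp only [Function.comp_apply, map_mul, conj_cpow_I, conj_nrm]
    ring
  have e2 : (msys M).ev p = (M.frob p).map fun z => nrm M.weight p * z := rfl
  rw [e1, e2, ten_smul, Multiset.map_map, tens_eq]
  congr 1
  refine Multiset.map_congr rfl fun z _ => ?_
  simp only [Function.comp_apply]
  have e3 : ((p : ℕ) : ℂ) ^ (-(edge (M.weight + M'.weight) τ + (ε : ℂ))) =
      nrm M.weight p * (nrm M'.weight p * ((p : ℕ) : ℂ) ^ (-((τ : ℂ) * I))) *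
        ((p : ℕ) : ℂ) ^ (-(1 + (ε : ℂ))) := by
    unfold nrm
    rw [← Complex.cpow_add _ _ hp, ← Complex.cpow_add _ _ hp, ← Complex.cpow_add _ _ hp]
    congr 1
    unfold edge
    push_cast
    ring
  rw [e3]
  ring

/-- **The size of the pairing.** -/
theorem size_pairing {M M' : Motive} {D : Nat.Primes → ℂ[X]} (hD : IsPairing M M' D) (τ : ℝ) :
    (∀ᶠ ε : ℝ in 𝓝[>] 0, LFun D (edge (M.weight + M'.weight) τ + ε) ≠ 0) ∧
    Tendsto (fun ε : ℝ => size (M.weight + M'.weight) D τ ε -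
      (cip ε (msys M).tr ((msys M').twist τ).tr).re / La ε) (𝓝[>] 0) (𝓝 0) := by
  classical
  have hfin := eventually_cofinite.1 hD.1
  obtain ⟨h1, c, h2⟩ := euler_link (S := msys M) (T := (msys M').twist τ) (msys_sqs M)
    (twist_sqs (msys_sqs M') τ)
    (w := M.weight + M'.weight) (τ := τ) (B := D) ((msys M).bad ∪ (msys M').bad ∪ hfin.toFinset)
    (fun p hp => by
      rw [Finset.mem_union, Finset.mem_union]
      exact Or.inl (Or.inl hp))
    (fun p hp => by
      rw [Finset.mem_union, Finset.mem_union]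
      exact Or.inl (Or.inr hp))
    (fun p hp ε _ => by
      rw [Finset.mem_union, not_or, Set.Finite.mem_toFinset, Set.mem_ofPred_eq, not_not] at hp
      exact pairing_factor hp.2 ε)
    (fun p => hD.2 p τ)
  refine ⟨h1, ?_⟩
  refine (div_log h2).congr fun ε => ?_
  unfold size La
  rw [sub_div]

theorem cip_add_left {u v w : Nat.Primes × ℕ → ℂ} (hu : SqS u) (hv : SqS v) (hw : SqS w) {ε : ℝ}
    (hε : 0 < ε) : cip ε (fun q => u q + v q) w = cip ε u w + cip ε v w := by
  unfold cip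
  rw [← (summable_pair hu hw hε).tsum_add (summable_pair hv hw hε)]
  refine tsum_congr fun q => ?_
  ring

theorem cip_add_right {u v w : Nat.Primes × ℕ → ℂ} (hu : SqS u) (hv : SqS v) (hw : SqS w) {ε : ℝ}
    (hε : 0 < ε) : cip ε w (fun q => u q + v q) = cip ε w u + cip ε w v := by
  unfold cip
  rw [← (summable_pair hw hu hε).tsum_add (summable_pair hw hv hε)]
  refine tsum_congr fun q => ?_
  rw [map_add]
  ring

theorem cip_nonneg {u : Nat.Primes × ℕ → ℂ} (hu : SqS u) {ε : ℝ} (hε : 0 < ε) :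
    0 ≤ (cip ε u u).re :=
  (self_hasSum hu hε).nonneg fun q => by have := (om_pos ε q).le; positivity

/-- **Cauchy and Schwarz.** -/
theorem cs {u v : Nat.Primes × ℕ → ℂ} (hu : SqS u) (hv : SqS v) {ε : ℝ} (hε : 0 < ε) :
    (cip ε u v).re ^ 2 ≤ (cip ε u u).re * (cip ε v v).re := by
  have h : ∀ t : ℝ, 0 ≤ (cip ε v v).re * (t * t) + (-2 * (cip ε u v).re) * t + (cip ε u u).re := by
    intro t
    have h1 := (expand ({()} : Finset Unit) (fun _ => t) (v := fun _ => v) hu (fun _ _ => hv)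
      hε).nonneg fun q => by have := (om_pos ε q).le; positivity
    simp only [Finset.sum_singleton] at h1
    nlinarith
  have h2 := discrim_le_zero h
  unfold discrim at h2
  nlinarith

theorem cs_div {u v : Nat.Primes × ℕ → ℂ} (hu : SqS u) (hv : SqS v) {ε : ℝ} (hε : 0 < ε)
    (hL : 0 < La ε) {a b : ℝ} (ha : 0 ≤ a) (hb : 0 ≤ b) (h1 : (cip ε u u).re / La ε ≤ a ^ 2)
    (h2 : (cip ε v v).re / La ε ≤ b ^ 2) : |(cip ε u v).re / La ε| ≤ a * b := by
  refine abs_le_of_sq_le_sq ?_ (by positivity)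
  have h3 := cs hu hv hε
  have h4 : ((cip ε u v).re / La ε) ^ 2 ≤ ((cip ε u u).re / La ε) * ((cip ε v v).re / La ε) := by
    rw [div_pow, div_mul_div_comm, ← sq]
    exact div_le_div_of_nonneg_right h3 (by positivity)
  refine h4.trans ?_
  rw [mul_pow]
  exact mul_le_mul h1 h2 (div_nonneg (cip_nonneg hv hε) hL.le) (by positivity)

theorem mean_nonneg {f : Nat.Primes → ℂ} {K : ℝ} (h : MeanSqLE f K) : 0 ≤ K := by
  refine le_of_forall_pos_le_add fun η hη => ?_
  obtain ⟨ε, h1, h2⟩ := ((h η hη).and (log_atTop.eventually_gt_atTop 0)).exists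
  have h3 : 0 ≤ ∑' p : Nat.Primes, ((p : ℕ) : ℝ) ^ (-(1 + ε)) * ‖f p‖ ^ 2 :=
    tsum_nonneg fun p => by positivity
  have h4 := h3.trans h1.2
  exact nonneg_of_mul_nonneg_left h4 h2

/-- **Vectors close to a given pair.** -/
theorem pair_close {v v' a a' : Nat.Primes × ℕ → ℂ} (hv : SqS v) (hv' : SqS v') (ha : SqS a)
    (ha' : SqS a') {K K' c : ℝ} (hK : 0 ≤ K) (hK' : 0 ≤ K')
    (h1 : ∀ η : ℝ, 0 < η → ∀ᶠ ε : ℝ in 𝓝[>] 0, (cip ε a a).re / La ε ≤ K + η)
    (h2 : ∀ η : ℝ, 0 < η → ∀ᶠ ε : ℝ in 𝓝[>] 0, (cip ε a' a').re / La ε ≤ K' + η)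
    (h3 : Tendsto (fun ε => (cip ε v v).re / La ε) (𝓝[>] 0) (𝓝 1))
    (h4 : Tendsto (fun ε => (cip ε v' v').re / La ε) (𝓝[>] 0) (𝓝 1))
    (h5 : Tendsto (fun ε => (cip ε v v').re / La ε) (𝓝[>] 0) (𝓝 c)) {η : ℝ} (hη : 0 < η) :
    ∀ᶠ ε : ℝ in 𝓝[>] 0,
      |(cip ε (fun q => v q + a q) (fun q => v' q + a' q)).re / La ε - c| ≤
        √K + √K' + √K * √K' + η := by
  have hcont : Tendsto (fun t : ℝ => √(1 + t) * √(K' + t) + √(K + t) * √(1 + t) +
      √(K + t) * √(K' + t) + t) (𝓝[>] 0) (𝓝 (√(1 + 0) * √(K' + 0) + √(K + 0) * √(1 + 0) +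
      √(K + 0) * √(K' + 0) + 0)) := by
    have : Continuous fun t : ℝ => √(1 + t) * √(K' + t) + √(K + t) * √(1 + t) +
      √(K + t) * √(K' + t) + t := by fun_prop
    exact (this.tendsto 0).mono_left nhdsWithin_le_nhds
  simp only [add_zero, Real.sqrt_one, one_mul, mul_one] at hcont
  obtain ⟨t, ht1, ht0⟩ := ((hcont.eventually (gt_mem_nhds (show √K' + √K + √K * √K' <
    √K + √K' + √K * √K' + η by linarith))).and self_mem_nhdsWithin).exists
  have ht : 0 < t := ht0
  have h6 := (h5.sub_const c).abs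
  rw [sub_self, abs_zero] at h6
  filter_upwards [h1 t ht, h2 t ht, h3.eventually (gt_mem_nhds (show (1 : ℝ) < 1 + t by linarith)),
    h4.eventually (gt_mem_nhds (show (1 : ℝ) < 1 + t by linarith)),
    h6.eventually (gt_mem_nhds ht), self_mem_nhdsWithin,
    log_atTop.eventually_gt_atTop 0] with ε g1 g2 g3 g4 g5 g6 g7
  have hε : 0 < ε := g6
  have hL : 0 < La ε := g7
  have s1 : (√(1 + t)) ^ 2 = 1 + t := Real.sq_sqrt (by linarith)
  have s2 : (√(K + t)) ^ 2 = K + t := Real.sq_sqrt (by linarith)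
  have s3 : (√(K' + t)) ^ 2 = K' + t := Real.sq_sqrt (by linarith)
  have b1 := cs_div hv ha' hε hL (Real.sqrt_nonneg (1 + t)) (Real.sqrt_nonneg (K' + t))
    (by rw [s1]; exact g3.le) (by rw [s3]; exact g2)
  have b2 := cs_div ha hv' hε hL (Real.sqrt_nonneg (K + t)) (Real.sqrt_nonneg (1 + t))
    (by rw [s2]; exact g1) (by rw [s1]; exact g4.le)
  have b3 := cs_div ha ha' hε hL (Real.sqrt_nonneg (K + t)) (Real.sqrt_nonneg (K' + t))
    (by rw [s2]; exact g1) (by rw [s3]; exact g2)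
  have e1 : (cip ε (fun q => v q + a q) (fun q => v' q + a' q)).re / La ε - c =
      ((cip ε v v').re / La ε - c) + (cip ε v a').re / La ε + (cip ε a v').re / La ε +
        (cip ε a a').re / La ε := by
    rw [cip_add_left hv ha (hv'.add ha') hε, cip_add_right hv' ha' hv hε,
      cip_add_right hv' ha' ha hε]
    simp only [Complex.add_re]
    ring
  rw [e1]
  have b4 := abs_add_le (((cip ε v v').re / La ε - c) + (cip ε v a').re / La ε +
    (cip ε a v').re / La ε) ((cip ε a a').re / La ε)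
  have b5 := abs_add_le (((cip ε v v').re / La ε - c) + (cip ε v a').re / La ε)
    ((cip ε a v').re / La ε)
  have b6 := abs_add_le ((cip ε v v').re / La ε - c) ((cip ε v a').re / La ε)
  linarith

end Run7.h736.AU
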