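import Pool.Agent.Run7.h736.AU.Gap1

/-! The gap. -/

set_option autoImplicit false

open Filter Topology Complex ComplexConjugate Finset Polynomial

namespace Run7.h736.AU

open Pool.Agent.Y149.CM (LFun)
open Pool.Agent.Y149.TL (Motive IsEuler edge size HasOrder)

section
variable {ι : Type} {π : ι → Sys}

/-- the difference of the vectors of `M` and of the isobaric sum -/
noncomputable def dif (π : ι → Sys) (M : Motive) (T : Finset (ι × ℝ)) (n : ι × ℝ → ℤ)
    (q : Nat.Primes × ℕ) : ℂ := (msys M).tr q - ∑ x ∈ T, ((n x : ℝ) : ℂ) * vec π x q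

theorem dif_eq (M : Motive) (T : Finset (ι × ℝ)) (n : ι × ℝ → ℤ) :
    dif π M T n = fun q => (msys M).tr q + ∑ x ∈ T, (-(n x : ℂ)) * vec π x q := by
  funext q
  unfold dif
  rw [sub_eq_add_neg, ← Finset.sum_neg_distrib]
  congr 1
  refine Finset.sum_congr rfl fun x _ => ?_
  push_cast
  ring

theorem dif_sqs (h : IsCuspidal π) (M : Motive) (T : Finset (ι × ℝ)) (n : ι × ℝ → ℤ) :
    SqS (dif π M T n) := by
  rw [dif_eq]
  exact (msys_sqs M).add (SqS.sum T fun x _ => (vec_sqs h x).smul _)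

theorem dif_norm (h : IsCuspidal π) (M : Motive) (T : Finset (ι × ℝ)) (n : ι × ℝ → ℤ)
    (hT : ∀ x ∈ T, Hi (π x.1).tr) {K : ℝ}
    (hK : MeanSqLE (fun p => ntr M p - ∑ x ∈ T, (n x : ℂ) * atr π x p) K) {η : ℝ} (hη : 0 < η) :
    ∀ᶠ ε : ℝ in 𝓝[>] 0, (cip ε (dif π M T n) (dif π M T n)).re / La ε ≤ K + η := by
  classical
  have hi : Hi (dif π M T n) := by
    rw [dif_eq]
    exact (hi_bdd (msys_tr_le M)).add (Hi.sum T fun x hx => (vec_hi (hT x hx)).smul _)
  refine norm_of_mean (dif_sqs h M T n) hi ((msys M).bad ∪ T.biUnion fun x => (π x.1).bad)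
    (fun p hp => ?_) hK hη
  rw [Finset.mem_union, not_or, Finset.mem_biUnion] at hp
  unfold dif
  rw [msys_ntr hp.1]
  congr 1
  refine Finset.sum_congr rfl fun x hx => ?_
  rw [vec_atr fun h3 => hp.2 ⟨x, hx, h3⟩]
  push_cast
  ring

/-- the pairing of the difference with a twist -/
theorem dif_pair (h : IsCuspidal π) (M : Motive) (T : Finset (ι × ℝ)) (n : ι × ℝ → ℤ)
    (hn : ∀ x, x ∉ T → n x = 0) (y : ι × ℝ) :
    Tendsto (fun ε => (cip ε (msys M).tr (vec π y)).re / La ε - n y -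
      (cip ε (dif π M T n) (vec π y)).re / La ε) (𝓝[>] 0) (𝓝 0) := by
  classical
  have h1 := (tendsto_finsetSum T fun x _ => (gram h x y).const_mul (n x : ℝ)).sub_const (n y : ℝ)
  have e0 : ∑ x ∈ T, (n x : ℝ) * (if x = y then (1 : ℝ) else 0) - (n y : ℝ) = 0 := by
    simp only [mul_ite, mul_one, mul_zero]
    rw [Finset.sum_ite_eq' T y (fun x => (n x : ℝ))]
    split_ifs with h3
    · ring
    · rw [hn y h3]
      simp
  rw [e0] at h1
  refine h1.congr' ?_
  filter_upwards [self_mem_nhdsWithin] with ε h3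
  have hε : 0 < ε := h3
  have e1 : cip ε (dif π M T n) (vec π y) = cip ε (msys M).tr (vec π y) +
      ∑ x ∈ T, (-(n x : ℂ)) * cip ε (vec π x) (vec π y) := by
    rw [dif_eq]
    have s1 := (summable_pair (msys_sqs M) (vec_sqs h y) hε).hasSum
    have s2 := hasSum_sum (s := T) fun x (_ : x ∈ T) =>
      (summable_pair (vec_sqs h x) (vec_sqs h y) hε).hasSum.mul_left (-(n x : ℂ))
    have s3 := s1.add s2
    refine HasSum.tsum_eq (s3.congr_fun fun q => ?_)
    rw [add_mul, mul_add, Finset.sum_mul, Finset.mul_sum]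
    congr 1
    refine Finset.sum_congr rfl fun x _ => ?_
    ring
  rw [e1, Complex.add_re, Complex.re_sum, add_div, Finset.sum_div]
  have e2 : ∑ x ∈ T, ((-(n x : ℂ)) * cip ε (vec π x) (vec π y)).re / La ε =
      -∑ x ∈ T, (n x : ℝ) * ((cip ε (vec π x) (vec π y)).re / La ε) := by
    rw [← Finset.sum_neg_distrib]
    refine Finset.sum_congr rfl fun x _ => ?_
    have e3 : (-(n x : ℂ)) = ((-(n x : ℝ) : ℝ) : ℂ) := by push_cast; ring
    rw [e3, Complex.re_ofReal_mul]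
    ring
  rw [e2]
  ring

/-- **The sizes of the twists, without continuation.** -/
theorem iso_mean (h : IsCuspidal π) (M : Motive) (T : Finset (ι × ℝ)) (n : ι × ℝ → ℤ)
    (hn : ∀ x, x ∉ T → n x = 0) (hT : ∀ x ∈ T, Hi (π x.1).tr) {K : ℝ}
    (hK : MeanSqLE (fun p => ntr M p - ∑ x ∈ T, (n x : ℂ) * atr π x p) K) (S : Finset (ι × ℝ))
    {B : ι × ℝ → Nat.Primes → ℂ[X]} (hB : ∀ x ∈ S, IsTwist M (π x.1) (B x)) {η : ℝ} (hη : 0 < η) :
    ∀ᶠ ε : ℝ in 𝓝[>] 0, ∑ x ∈ S, (size M.weight (B x) x.2 ε - n x) ^ 2 ≤ K + η := by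
  classical
  have hc := core h (dif_sqs h M T n) (fun η hη => dif_norm h M T n hT hK hη) S
    (a := fun x ε => size M.weight (B x) x.2 ε - n x) (fun x hx => ?_) (half_pos hη)
  · filter_upwards [hc, dif_norm h M T n hT hK (half_pos hη)] with ε h1 h2
    linarith
  · have h1 := ((size_twist (h.conv x.1) (hB x hx) x.2).2).add (dif_pair h M T n hn x)
    rw [add_zero] at h1
    refine h1.congr fun ε => ?_
    have : cip ε (msys M).tr ((π x.1).twist x.2).tr = cip ε (msys M).tr (vec π x) := rfl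
    rw [this]
    ring

/-- **The size of the square and the sizes of the twists.** -/
theorem iso_square (h : IsCuspidal π) (M : Motive) (T : Finset (ι × ℝ)) (n : ι × ℝ → ℤ)
    (hT : ∀ x ∈ T, Hi (π x.1).tr) {K : ℝ}
    (hK : MeanSqLE (fun p => ntr M p - ∑ x ∈ T, (n x : ℂ) * atr π x p) K)
    {D : Nat.Primes → ℂ[X]} (hD : IsSquare M D)
    {B : ι × ℝ → Nat.Primes → ℂ[X]} (hB : ∀ x ∈ T, IsTwist M (π x.1) (B x)) {η : ℝ} (hη : 0 < η) :
    ∀ᶠ ε : ℝ in 𝓝[>] 0,
      -η ≤ size (2 * M.weight) D 0 ε - 2 * ∑ x ∈ T, n x * size M.weight (B x) x.2 ε +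
        ∑ x ∈ T, (n x : ℝ) ^ 2 ∧
      size (2 * M.weight) D 0 ε - 2 * ∑ x ∈ T, n x * size M.weight (B x) x.2 ε +
        ∑ x ∈ T, (n x : ℝ) ^ 2 ≤ K + η := by
  classical
  have h1 := (size_square hD).2
  have h2 : Tendsto (fun ε => 2 * ∑ x ∈ T, (n x : ℝ) * (size M.weight (B x) x.2 ε -
      (cip ε (msys M).tr (vec π x)).re / La ε)) (𝓝[>] 0) (𝓝 (2 * ∑ x ∈ T, (n x : ℝ) * 0)) :=
    (tendsto_finsetSum T fun x hx =>
      ((size_twist (h.conv x.1) (hB x hx) x.2).2).const_mul (n x : ℝ)).const_mul 2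
  have h3 : Tendsto (fun ε => ∑ x ∈ T, ∑ y ∈ T, (n x : ℝ) * n y *
      ((cip ε (vec π x) (vec π y)).re / La ε)) (𝓝[>] 0)
      (𝓝 (∑ x ∈ T, ∑ y ∈ T, (n x : ℝ) * n y * (if x = y then 1 else 0))) :=
    tendsto_finsetSum _ fun x hx => tendsto_finsetSum _ fun y hy =>
      (gram h x y).const_mul ((n x : ℝ) * n y)
  have e3 : ∑ x ∈ T, ∑ y ∈ T, (n x : ℝ) * n y * (if x = y then (1 : ℝ) else 0) =
      ∑ x ∈ T, (n x : ℝ) ^ 2 := by
    refine Finset.sum_congr rfl fun x hx => ?_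
    simp only [mul_ite, mul_one, mul_zero]
    rw [Finset.sum_ite_eq T x (fun y => (n x : ℝ) * n y), if_pos hx]
    ring
  have h4 := ((h1.sub h2).sub (h3.sub_const (∑ x ∈ T, (n x : ℝ) ^ 2))).abs
  rw [e3] at h4
  simp only [mul_zero, Finset.sum_const_zero, sub_self, abs_zero] at h4
  filter_upwards [h4.eventually (gt_mem_nhds (half_pos hη)), dif_norm h M T n hT hK (half_pos hη),
    self_mem_nhdsWithin, log_atTop.eventually_gt_atTop 0] with ε g1 g2 g3 g4
  have hε : 0 < ε := g3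
  have hL : 0 < La ε := g4
  have g5 := expand T (fun x => (n x : ℝ)) (msys_sqs M) (fun x _ => vec_sqs h x) hε
  have g6 := self_hasSum (dif_sqs h M T n) hε
  have g7 : (cip ε (dif π M T n) (dif π M T n)).re =
      (cip ε (msys M).tr (msys M).tr).re -
        2 * ∑ x ∈ T, (n x : ℝ) * (cip ε (msys M).tr (vec π x)).re +
        ∑ x ∈ T, ∑ y ∈ T, (n x : ℝ) * n y * (cip ε (vec π x) (vec π y)).re :=
    g6.unique g5
  have g8 : (cip ε (dif π M T n) (dif π M T n)).re / La ε =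
      (cip ε (msys M).tr (msys M).tr).re / La ε -
        2 * ∑ x ∈ T, (n x : ℝ) * ((cip ε (msys M).tr (vec π x)).re / La ε) +
        ∑ x ∈ T, ∑ y ∈ T, (n x : ℝ) * n y * ((cip ε (vec π x) (vec π y)).re / La ε) := by
    rw [g7, add_div, sub_div, mul_div_assoc, Finset.sum_div, Finset.sum_div]
    congr 1
    · congr 2
      exact Finset.sum_congr rfl fun x _ => by ring
    · refine Finset.sum_congr rfl fun x _ => ?_
      rw [Finset.sum_div]
      exact Finset.sum_congr rfl fun y _ => by ring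
  have g9 : 0 ≤ (cip ε (dif π M T n) (dif π M T n)).re / La ε :=
    div_nonneg (cip_nonneg (dif_sqs h M T n) hε) hL.le
  have g10 : ∑ x ∈ T, (n x : ℝ) * (size M.weight (B x) x.2 ε -
      (cip ε (msys M).tr (vec π x)).re / La ε) = ∑ x ∈ T, n x * size M.weight (B x) x.2 ε -
      ∑ x ∈ T, (n x : ℝ) * ((cip ε (msys M).tr (vec π x)).re / La ε) := by
    rw [← Finset.sum_sub_distrib]
    exact Finset.sum_congr rfl fun x _ => by ring
  rw [g10] at g1
  have g11 := abs_lt.1 g1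
  constructor
  · linarith [g11.1, g11.2]
  · linarith [g11.1, g11.2]

/-- **The gap for isobaric sums.** -/
theorem iso_gap (h : IsCuspidal π) (M : Motive) (T : Finset (ι × ℝ)) (n : ι × ℝ → ℤ)
    (hn : ∀ x, x ∉ T → n x = 0) (hT : ∀ x ∈ T, Hi (π x.1).tr) {K : ℝ}
    (hK : MeanSqLE (fun p => ntr M p - ∑ x ∈ T, (n x : ℂ) * atr π x p) K) (hK1 : K < 1)
    {D : Nat.Primes → ℂ[X]} (hD : IsSquare M D) {k : ℤ} (hk : HasOrder (2 * M.weight) D 0 (-k))
    {B : ι × ℝ → Nat.Primes → ℂ[X]} (hB : ∀ x ∈ T, IsTwist M (π x.1) (B x)) {r : ι × ℝ → ℤ}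
    (hr : ∀ x ∈ T, HasOrder M.weight (B x) x.2 (r x)) :
    k = ∑ x ∈ T, n x ^ 2 ∧
      MeanSqLE (fun p => ntr M p - ∑ x ∈ T, (n x : ℂ) * atr π x p) 0 ∧
      ∀ y ∉ T, ∀ C : Nat.Primes → ℂ[X], IsTwist M (π y.1) C →
        Tendsto (fun ε => size M.weight C y.2 ε) (𝓝[>] 0) (𝓝 0) := by
  classical
  have hrn : ∀ x ∈ T, r x = -n x := fun x hx =>
    iso_single h M T n hn hT hK hK1 x (hB x hx) (hr x hx)
  have e1 : ∑ x ∈ T, r x ^ 2 = ∑ x ∈ T, n x ^ 2 :=
    Finset.sum_congr rfl fun x hx => by rw [hrn x hx]; ring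
  obtain ⟨h1, h2⟩ := one_order_square h M hD hk T hB hr
  rw [e1] at h1
  have h3 : (k : ℝ) - ∑ x ∈ T, (n x : ℝ) ^ 2 ≤ K := by
    refine le_of_forall_pos_le_add fun η hη => ?_
    have hk' : Tendsto (fun ε : ℝ => size (2 * M.weight) D 0 ε) (𝓝[>] 0) (𝓝 (k : ℝ)) := by
      have := size_order hk
      simpa using this
    have hs : Tendsto (fun ε => ∑ x ∈ T, (n x : ℝ) * size M.weight (B x) x.2 ε) (𝓝[>] 0)
        (𝓝 (∑ x ∈ T, (n x : ℝ) * (-(r x : ℝ)))) :=
      tendsto_finsetSum _ fun x hx => (size_order (hr x hx)).const_mul _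
    have e2 : ∑ x ∈ T, (n x : ℝ) * (-(r x : ℝ)) = ∑ x ∈ T, (n x : ℝ) ^ 2 :=
      Finset.sum_congr rfl fun x hx => by rw [hrn x hx]; push_cast; ring
    rw [e2] at hs
    have h4 := (hk'.sub (hs.const_mul 2)).add_const (∑ x ∈ T, (n x : ℝ) ^ 2)
    have e3 : (k : ℝ) - 2 * ∑ x ∈ T, (n x : ℝ) ^ 2 + ∑ x ∈ T, (n x : ℝ) ^ 2 =
        k - ∑ x ∈ T, (n x : ℝ) ^ 2 := by ring
    rw [e3] at h4
    exact le_of_tendsto h4 ((iso_square h M T n hT hK hD hB hη).mono fun ε h5 => h5.2)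
  have h4 : k = ∑ x ∈ T, n x ^ 2 := by
    have h5 : ((k - ∑ x ∈ T, n x ^ 2 : ℤ) : ℝ) < 1 := by
      push_cast
      linarith
    have h6 : k - ∑ x ∈ T, n x ^ 2 < 1 := by exact_mod_cast h5
    omega
  refine ⟨h4, ?_, ?_⟩
  · have h5 := distance_mean h M hD hk T hB hr
    rw [e1, ← h4, sub_self, Int.cast_zero] at h5
    have e4 : (fun p => ntr M p + ∑ x ∈ T, (r x : ℂ) * atr π x p) =
        fun p => ntr M p - ∑ x ∈ T, (n x : ℂ) * atr π x p := by
      funext p
      rw [sub_eq_add_neg, ← Finset.sum_neg_distrib]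
      congr 1
      refine Finset.sum_congr rfl fun x hx => ?_
      rw [hrn x hx]
      push_cast
      ring
    rw [e4] at h5
    exact h5
  · intro y hy C hC
    exact equality_rest h M hD hk T hB hr (by rw [e1, ← h4]) hy hC

end

/-- **The gap for two motives.** -/
theorem two_gap (M M' : Motive) {K : ℝ} (hK : MeanSqLE (fun p => ntr M p - ntr M' p) K)
    (hK1 : K < 1) {D D' D2 : Nat.Primes → ℂ[X]} (hD : IsSquare M D) (hD' : IsSquare M' D')
    (hD2 : IsPairing M M' D2) {k k' m : ℤ} (hk : HasOrder (2 * M.weight) D 0 (-k))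
    (hk' : HasOrder (2 * M'.weight) D' 0 (-k'))
    (hm : HasOrder (M.weight + M'.weight) D2 0 (-m)) :
    k = m ∧ k' = m ∧ MeanSqLE (fun p => ntr M p - ntr M' p) 0 := by
  classical
  set u : Nat.Primes × ℕ → ℂ := fun q => (msys M).tr q + (-1) * (msys M').tr q with hu
  have hsq : SqS u := (msys_sqs M).add ((msys_sqs M').smul (-1))
  have hi : Hi u := (hi_bdd (msys_tr_le M)).add ((hi_bdd (msys_tr_le M')).smul (-1))
  have hf : ∀ p, p ∉ (msys M).bad ∪ (msys M').bad → u (p, 0) = ntr M p - ntr M' p := by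
    intro p hp
    rw [Finset.mem_union, not_or] at hp
    simp only [hu]
    rw [msys_ntr hp.1, msys_ntr hp.2]
    ring
  have hn : ∀ η : ℝ, 0 < η → ∀ᶠ ε : ℝ in 𝓝[>] 0, (cip ε u u).re / La ε ≤ K + η :=
    fun η hη => norm_of_mean hsq hi _ hf hK hη
  have t1 : Tendsto (fun ε => (cip ε (msys M).tr (msys M).tr).re / La ε) (𝓝[>] 0) (𝓝 (k : ℝ)) := by
    have h1 := (size_order hk).sub (size_square hD).2
    rw [sub_zero] at h1
    push_cast at h1
    rw [neg_neg] at h1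
    exact h1.congr fun ε => by ring
  have t2 : Tendsto (fun ε => (cip ε (msys M').tr (msys M').tr).re / La ε) (𝓝[>] 0)
      (𝓝 (k' : ℝ)) := by
    have h1 := (size_order hk').sub (size_square hD').2
    rw [sub_zero] at h1
    push_cast at h1
    rw [neg_neg] at h1
    exact h1.congr fun ε => by ring
  have htw : ∀ ε, cip ε (msys M).tr ((msys M').twist 0).tr = cip ε (msys M).tr (msys M').tr := by
    intro ε
    congr 1
    funext q
    rw [twist_tr]
    simp
  have t3 : Tendsto (fun ε => (cip ε (msys M).tr (msys M').tr).re / La ε) (𝓝[>] 0)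
      (𝓝 (m : ℝ)) := by
    have h1 := (size_order hm).sub (size_pairing hD2 0).2
    rw [sub_zero] at h1
    push_cast at h1
    rw [neg_neg] at h1
    refine h1.congr fun ε => ?_
    rw [htw]
    ring
  have t4 : Tendsto (fun ε => (cip ε u u).re / La ε) (𝓝[>] 0) (𝓝 ((k : ℝ) - 2 * m + k')) := by
    refine ((t1.sub (t3.const_mul 2)).add t2).congr' ?_
    filter_upwards [self_mem_nhdsWithin] with ε h3
    have hε : 0 < ε := h3
    have g5 := expand ({()} : Finset Unit) (fun _ => (1 : ℝ)) (v := fun _ => (msys M').tr)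
      (msys_sqs M) (fun _ _ => msys_sqs M') hε
    simp only [Finset.sum_singleton] at g5
    have g6 := self_hasSum hsq hε
    have g7 := (g6.congr_fun (g := fun q => om ε q * ‖(msys M).tr q -
      ((1 : ℝ) : ℂ) * (msys M').tr q‖ ^ 2) fun q => by
        simp only [hu]
        congr 3
        push_cast
        ring).unique g5
    rw [g7, add_div, sub_div]
    ring
  have hKz : (k : ℝ) - 2 * m + k' ≤ K := by
    refine le_of_forall_pos_le_add fun η hη => le_of_tendsto t4 (hn η hη)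
  have h0 : 0 ≤ (k : ℝ) - 2 * m + k' := by
    refine ge_of_tendsto t4 ?_
    filter_upwards [self_mem_nhdsWithin, log_atTop.eventually_gt_atTop 0] with ε h3 h4
    exact div_nonneg (cip_nonneg hsq h3) (le_of_lt h4)
  have hz : k - 2 * m + k' = 0 := by
    have h5 : ((k - 2 * m + k' : ℤ) : ℝ) < 1 := by push_cast; linarith
    have h6 : (0 : ℝ) ≤ ((k - 2 * m + k' : ℤ) : ℝ) := by push_cast; linarith
    have h7 : k - 2 * m + k' < 1 := by exact_mod_cast h5
    have h8 : 0 ≤ k - 2 * m + k' := by exact_mod_cast h6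
    omega
  have hcs : (m : ℝ) ^ 2 ≤ k * k' := by
    refine le_of_tendsto_of_tendsto (t3.pow 2) (t1.mul t2) ?_
    filter_upwards [self_mem_nhdsWithin, log_atTop.eventually_gt_atTop 0] with ε h3 h4
    have hL : 0 < La ε := h4
    rw [div_pow, div_mul_div_comm, ← sq]
    exact div_le_div_of_nonneg_right (cs (msys_sqs M) (msys_sqs M') h3) (by positivity)
  have hcs' : m ^ 2 ≤ k * k' := by exact_mod_cast hcs
  have hkk : k = k' := by
    have e5 : 2 * m = k + k' := by omega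
    have e6 : (2 * m) ^ 2 ≤ 4 * (k * k') := by linarith [hcs', mul_pow 2 m 2]
    rw [e5] at e6
    have h5 : (k - k') ^ 2 ≤ 0 := by linarith [e6, add_sq k k', sub_sq k k']
    have h6 : k - k' = 0 := by
      by_contra h7
      have : 0 < (k - k') ^ 2 := by positivity
      omega
    omega
  refine ⟨by omega, by omega, ?_⟩
  have e0 : (k : ℝ) - 2 * m + k' = 0 := by exact_mod_cast hz
  rw [e0] at t4
  refine mean_of_norm hsq _ hf ?_
  refine t4.congr' ?_
  filter_upwards [self_mem_nhdsWithin] with ε h3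
  rw [(self_hasSum hsq h3).tsum_eq]

end Run7.h736.AU
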