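import Pool.Agent.Run7.h736.AU.Gap2

/-! Pairs of representations and motives. -/

set_option autoImplicit false

open Filter Topology Complex ComplexConjugate Finset Polynomial

namespace Run7.h736.AU

open Pool.Agent.Y149.CM (LFun)
open Pool.Agent.Y149.TL (Motive IsEuler edge size HasOrder)

/-- The mean square over the primes of the difference of the traces of Frobenius on `M` and of
`π_e ⊗ |det|^(-iτ)`, `x = (e, τ)`, is at most `K`. -/
def Near {ι : Type} (π : ι → Sys) (M : Motive) (x : ι × ℝ) (K : ℝ) : Prop :=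
  MeanSqLE (fun p => ntr M p - atr π x p) K

/-- the difference, twisted -/
noncomputable def dtw {ι : Type} (π : ι → Sys) (M : Motive) (x : ι × ℝ) (τ : ℝ)
    (q : Nat.Primes × ℕ) : ℂ :=
  (((q.1 : ℕ) : ℂ) ^ ((τ : ℂ) * I)) ^ (q.2 + 1) * ((msys M).tr q + (-1) * vec π x q)

section
variable {ι : Type} {π : ι → Sys}

theorem vec_shift (x : ι × ℝ) (τ : ℝ) (q : Nat.Primes × ℕ) :
    vec π (x.1, x.2 + τ) q = (((q.1 : ℕ) : ℂ) ^ ((τ : ℂ) * I)) ^ (q.2 + 1) * vec π x q := by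
  have hp : ((q.1 : ℕ) : ℂ) ≠ 0 := by exact_mod_cast q.1.2.ne_zero
  unfold vec
  simp only
  rw [twist_tr, twist_tr, ← mul_assoc, ← mul_pow, ← Complex.cpow_add _ _ hp]
  congr 3
  push_cast
  ring

theorem tr_shift (x : ι × ℝ) (M : Motive) (τ : ℝ) : ((msys M).twist τ).tr =
    fun q => vec π (x.1, x.2 + τ) q + dtw π M x τ q := by
  funext q
  rw [twist_tr, vec_shift]
  unfold dtw
  ring

theorem tr_split (x : ι × ℝ) (M : Motive) : (msys M).tr =
    fun q => vec π x q + dtw π M x 0 q := by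
  funext q
  unfold dtw
  simp

theorem dtw_norm_eq (M : Motive) (x : ι × ℝ) (τ : ℝ) (q : Nat.Primes × ℕ) :
    ‖dtw π M x τ q‖ = ‖(msys M).tr q + (-1) * vec π x q‖ := by
  unfold dtw
  rw [norm_mul, norm_pow, norm_cpow_I, one_pow, one_mul]

theorem dtw_sqs (h : IsCuspidal π) (M : Motive) (x : ι × ℝ) (τ : ℝ) : SqS (dtw π M x τ) := by
  intro ε hε
  refine (((msys_sqs M).add ((vec_sqs h x).smul (-1))) ε hε).congr fun q => ?_
  rw [dtw_norm_eq]

theorem dtw_norm (h : IsCuspidal π) (M : Motive) (x : ι × ℝ) (hx : Hi (π x.1).tr) {K : ℝ}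
    (hK : Near π M x K) (τ : ℝ) {η : ℝ} (hη : 0 < η) :
    ∀ᶠ ε : ℝ in 𝓝[>] 0, (cip ε (dtw π M x τ) (dtw π M x τ)).re / La ε ≤ K + η := by
  classical
  set u : Nat.Primes × ℕ → ℂ := fun q => (msys M).tr q + (-1) * vec π x q with hu
  have hsq : SqS u := (msys_sqs M).add ((vec_sqs h x).smul (-1))
  have hi : Hi u := (hi_bdd (msys_tr_le M)).add ((vec_hi hx).smul (-1))
  filter_upwards [norm_of_mean hsq hi ((msys M).bad ∪ (π x.1).bad) (fun p hp => by
      rw [Finset.mem_union, not_or] at hp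
      simp only [hu]
      rw [msys_ntr hp.1, vec_atr hp.2]
      ring) hK hη, self_mem_nhdsWithin] with ε h1 h2
  have hε : 0 < ε := h2
  rw [← (self_hasSum hsq hε).tsum_eq] at h1
  rw [← (self_hasSum (dtw_sqs h M x τ) hε).tsum_eq]
  simp only [dtw_norm_eq]
  exact h1

/-- **Two motives near two representations.** -/
theorem pair_near (h : IsCuspidal π) {M M' : Motive} {x x' : ι × ℝ} (hx : Hi (π x.1).tr)
    (hx' : Hi (π x'.1).tr) {K K' : ℝ} (hK : Near π M x K) (hK' : Near π M' x' K')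
    {D : Nat.Primes → ℂ[X]} (hD : IsPairing M M' D) (τ : ℝ) [Decidable (x = (x'.1, x'.2 + τ))]
    {η : ℝ} (hη : 0 < η) :
    ∀ᶠ ε : ℝ in 𝓝[>] 0, LFun D (edge (M.weight + M'.weight) τ + ε) ≠ 0 ∧
      |size (M.weight + M'.weight) D τ ε - (if x = (x'.1, x'.2 + τ) then 1 else 0)| ≤
        √K + √K' + √K * √K' + η := by
  classical
  obtain ⟨h1, h2⟩ := size_pairing hD τ
  have h3 := h2.abs
  rw [abs_zero] at h3
  have g1 : Tendsto (fun ε => (cip ε (vec π x) (vec π x)).re / La ε) (𝓝[>] 0) (𝓝 1) := by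
    have := gram h x x
    rwa [if_pos rfl] at this
  have g2 : Tendsto (fun ε => (cip ε (vec π (x'.1, x'.2 + τ)) (vec π (x'.1, x'.2 + τ))).re / La ε)
      (𝓝[>] 0) (𝓝 1) := by
    have := gram h (x'.1, x'.2 + τ) (x'.1, x'.2 + τ)
    rwa [if_pos rfl] at this
  have g3 : Tendsto (fun ε => (cip ε (vec π x) (vec π (x'.1, x'.2 + τ))).re / La ε) (𝓝[>] 0)
      (𝓝 (if x = (x'.1, x'.2 + τ) then 1 else 0)) := by
    convert gram h x (x'.1, x'.2 + τ) using 2
    split_ifs <;> rfl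
  have h4 := pair_close (vec_sqs h x) (vec_sqs h (x'.1, x'.2 + τ)) (dtw_sqs h M x 0)
    (dtw_sqs h M' x' τ) (mean_nonneg hK) (mean_nonneg hK')
    (fun η hη => dtw_norm h M x hx hK 0 hη) (fun η hη => dtw_norm h M' x' hx' hK' τ hη)
    g1 g2 g3 (half_pos hη)
  rw [← tr_split, ← tr_shift] at h4
  filter_upwards [h1, h3.eventually (gt_mem_nhds (half_pos hη)), h4] with ε f1 f2 f3
  refine ⟨f1, ?_⟩
  have f4 := abs_sub_abs_le_abs_sub
    (size (M.weight + M'.weight) D τ ε - (if x = (x'.1, x'.2 + τ) then 1 else 0))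
    ((cip ε (msys M).tr ((msys M').twist τ).tr).re / La ε -
      (if x = (x'.1, x'.2 + τ) then 1 else 0))
  rw [sub_sub_sub_cancel_right] at f4
  linarith

/-- the orders -/
theorem pair_order_near (h : IsCuspidal π) {M M' : Motive} {x x' : ι × ℝ} (hx : Hi (π x.1).tr)
    (hx' : Hi (π x'.1).tr) {K K' : ℝ} (hK : Near π M x K) (hK' : Near π M' x' K')
    (hKK : √K + √K' + √K * √K' < 1)
    {D : Nat.Primes → ℂ[X]} (hD : IsPairing M M' D) (τ : ℝ) [Decidable (x = (x'.1, x'.2 + τ))]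
    {m : ℤ} (hm : HasOrder (M.weight + M'.weight) D τ (-m)) :
    m = if x = (x'.1, x'.2 + τ) then 1 else 0 := by
  have h1 : Tendsto (fun ε : ℝ => size (M.weight + M'.weight) D τ ε) (𝓝[>] 0) (𝓝 (m : ℝ)) := by
    have := size_order hm
    simpa using this
  have h2 := (h1.sub_const (if x = (x'.1, x'.2 + τ) then (1 : ℝ) else 0)).abs
  have h3 : |(m : ℝ) - (if x = (x'.1, x'.2 + τ) then (1 : ℝ) else 0)| ≤
      √K + √K' + √K * √K' := by
    refine le_of_forall_pos_le_add fun η hη => ?_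
    exact le_of_tendsto h2 ((pair_near h hx hx' hK hK' hD τ hη).mono fun ε h4 => h4.2)
  have h4 : |(m : ℝ) - (if x = (x'.1, x'.2 + τ) then (1 : ℝ) else 0)| < 1 := lt_of_le_of_lt h3 hKK
  have h5 : |m - (if x = (x'.1, x'.2 + τ) then (1 : ℤ) else 0)| < 1 := by
    have h6 : ((|m - (if x = (x'.1, x'.2 + τ) then (1 : ℤ) else 0)| : ℤ) : ℝ) < 1 := by
      push_cast
      exact h4
    exact_mod_cast h6
  have h6 := Int.abs_lt_one_iff.1 h5
  omega

end

end Run7.h736.AU
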