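import Pool.Agent.Run7.h736.AU.Zeta

/-! The Bessel inequality. -/

set_option autoImplicit false

open Filter Topology Complex ComplexConjugate Finset

namespace Run7.h736.AU

/-- `log (1 / ε)` -/
noncomputable def La (ε : ℝ) : ℝ := Real.log (1 / ε)

theorem rip_hasSum {u v : Nat.Primes × ℕ → ℂ} (hu : SqS u) (hv : SqS v) {ε : ℝ} (hε : 0 < ε) :
    HasSum (fun q => om ε q * (u q * conj (v q)).re) (cip ε u v).re := by
  have h := Complex.hasSum_re (summable_pair hu hv hε).hasSum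
  refine h.congr_fun fun q => ?_
  rw [Complex.re_ofReal_mul]

theorem self_hasSum {u : Nat.Primes × ℕ → ℂ} (hu : SqS u) {ε : ℝ} (hε : 0 < ε) :
    HasSum (fun q => om ε q * ‖u q‖ ^ 2) (cip ε u u).re := by
  refine (rip_hasSum hu hu hε).congr_fun fun q => ?_
  rw [Complex.mul_conj, Complex.ofReal_re, Complex.normSq_eq_norm_sq]

theorem SqS.smul {u : Nat.Primes × ℕ → ℂ} (hu : SqS u) (c : ℂ) : SqS fun q => c * u q := by
  intro ε hε
  refine ((hu ε hε).mul_left (‖c‖ ^ 2)).congr fun q => ?_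
  rw [norm_mul]
  ring

theorem SqS.add {u v : Nat.Primes × ℕ → ℂ} (hu : SqS u) (hv : SqS v) : SqS fun q => u q + v q := by
  intro ε hε
  refine Summable.of_nonneg_of_le (fun q => by have := (om_pos ε q).le; positivity) (fun q => ?_)
    (((hu ε hε).add (hv ε hε)).mul_left 2)
  have h1 := norm_add_le (u q) (v q)
  have h2 := om_pos ε q
  have h3 : ‖u q + v q‖ ^ 2 ≤ 2 * (‖u q‖ ^ 2 + ‖v q‖ ^ 2) := by
    nlinarith [norm_nonneg (u q + v q), norm_nonneg (u q), norm_nonneg (v q),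
      sq_nonneg (‖u q‖ - ‖v q‖)]
  nlinarith

theorem SqS.sum {X : Type} (F : Finset X) {v : X → Nat.Primes × ℕ → ℂ} (hv : ∀ x ∈ F, SqS (v x)) :
    SqS fun q => ∑ x ∈ F, v x q := by
  classical
  induction F using Finset.induction_on with
  | empty =>
    intro ε hε
    simp
  | insert a F ha ih =>
    have h1 := (hv a (Finset.mem_insert_self _ _)).add
      (ih fun x hx => hv x (Finset.mem_insert_of_mem hx))
    refine fun ε hε => (h1 ε hε).congr fun q => ?_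
    simp only [Finset.sum_insert ha]

/-- the expansion of the square of the distance -/
theorem expand {X : Type} (F : Finset X) (c : X → ℝ) {u : Nat.Primes × ℕ → ℂ}
    {v : X → Nat.Primes × ℕ → ℂ} (hu : SqS u) (hv : ∀ x ∈ F, SqS (v x)) {ε : ℝ} (hε : 0 < ε) :
    HasSum (fun q => om ε q * ‖u q - ∑ x ∈ F, (c x : ℂ) * v x q‖ ^ 2)
      ((cip ε u u).re - 2 * ∑ x ∈ F, c x * (cip ε u (v x)).re +
        ∑ x ∈ F, ∑ y ∈ F, c x * c y * (cip ε (v x) (v y)).re) := by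
  have h1 := self_hasSum hu hε
  have h2 : HasSum (fun q => ∑ x ∈ F, c x * (om ε q * (u q * conj (v x q)).re))
      (∑ x ∈ F, c x * (cip ε u (v x)).re) :=
    hasSum_sum fun x hx => (rip_hasSum hu (hv x hx) hε).mul_left (c x)
  have h3 : HasSum (fun q => ∑ x ∈ F, ∑ y ∈ F, c x * c y * (om ε q * (v x q * conj (v y q)).re))
      (∑ x ∈ F, ∑ y ∈ F, c x * c y * (cip ε (v x) (v y)).re) :=
    hasSum_sum fun x hx => hasSum_sum fun y hy =>
      (rip_hasSum (hv x hx) (hv y hy) hε).mul_left (c x * c y)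
  refine ((h1.sub (h2.mul_left 2)).add h3).congr_fun fun q => ?_
  have e1 : ∀ z : ℂ, ‖z‖ ^ 2 = (z * conj z).re := fun z => by
    rw [Complex.mul_conj, Complex.ofReal_re, Complex.normSq_eq_norm_sq]
  have e2 : (u q - ∑ x ∈ F, (c x : ℂ) * v x q) * conj (u q - ∑ x ∈ F, (c x : ℂ) * v x q) =
      u q * conj (u q) - (∑ x ∈ F, (c x : ℂ) * (u q * conj (v x q))) -
      (∑ x ∈ F, (c x : ℂ) * conj (u q * conj (v x q))) +
      ∑ x ∈ F, ∑ y ∈ F, (c x : ℂ) * (c y : ℂ) * (v x q * conj (v y q)) := by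
    rw [map_sub, map_sum, sub_mul, mul_sub, mul_sub, Finset.mul_sum, Finset.sum_mul,
      Finset.sum_mul_sum]
    have a1 : ∑ x ∈ F, u q * conj ((c x : ℂ) * v x q) = ∑ x ∈ F, (c x : ℂ) * (u q * conj (v x q)) :=
      Finset.sum_congr rfl fun x _ => by
        rw [map_mul, Complex.conj_ofReal]
        ring
    have a2 : ∑ x ∈ F, (c x : ℂ) * v x q * conj (u q) =
        ∑ x ∈ F, (c x : ℂ) * conj (u q * conj (v x q)) :=
      Finset.sum_congr rfl fun x _ => by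
        rw [map_mul, Complex.conj_conj]
        ring
    have a3 : ∑ x ∈ F, ∑ y ∈ F, (c x : ℂ) * v x q * conj ((c y : ℂ) * v y q) =
        ∑ x ∈ F, ∑ y ∈ F, (c x : ℂ) * (c y : ℂ) * (v x q * conj (v y q)) :=
      Finset.sum_congr rfl fun x _ => Finset.sum_congr rfl fun y _ => by
        rw [map_mul, Complex.conj_ofReal]
        ring
    rw [a1, a2, a3]
    ring
  rw [e1, e2]
  simp only [Complex.add_re, Complex.sub_re, Complex.re_sum, Complex.re_ofReal_mul,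
    Complex.conj_re]
  have b1 : ∀ x y : X, ((c x : ℂ) * (c y : ℂ) * (v x q * conj (v y q))).re =
      c x * c y * (v x q * conj (v y q)).re := fun x y => by
    rw [← Complex.ofReal_mul, Complex.re_ofReal_mul]
  simp only [b1]
  rw [← e1]
  have c2 : ∑ x ∈ F, c x * (om ε q * (u q * conj (v x q)).re) =
      om ε q * ∑ x ∈ F, c x * (u q * conj (v x q)).re := by
    rw [Finset.mul_sum]
    exact Finset.sum_congr rfl fun x _ => by ring
  have c3 : ∑ x ∈ F, ∑ y ∈ F, c x * c y * (om ε q * (v x q * conj (v y q)).re) =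
      om ε q * ∑ x ∈ F, ∑ y ∈ F, c x * c y * (v x q * conj (v y q)).re := by
    rw [Finset.mul_sum]
    refine Finset.sum_congr rfl fun x _ => ?_
    rw [Finset.mul_sum]
    exact Finset.sum_congr rfl fun y _ => by ring
  rw [c2, c3]
  ring

/-- **Bessel's inequality.** -/
theorem bessel {X : Type} [DecidableEq X] (F : Finset X) {u : Nat.Primes × ℕ → ℂ}
    {v : X → Nat.Primes × ℕ → ℂ} (hu : SqS u) (hv : ∀ x ∈ F, SqS (v x)) {K : ℝ}
    (hK : ∀ᶠ ε : ℝ in 𝓝[>] 0, (cip ε u u).re / La ε ≤ K)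
    (hG : ∀ x ∈ F, ∀ y ∈ F, Tendsto (fun ε => (cip ε (v x) (v y)).re / La ε) (𝓝[>] 0)
      (𝓝 (if x = y then 1 else 0))) {η : ℝ} (hη : 0 < η) :
    ∀ᶠ ε : ℝ in 𝓝[>] 0, ∑ x ∈ F, ((cip ε u (v x)).re / La ε) ^ 2 ≤ (cip ε u u).re / La ε + η := by
  obtain ⟨θ, hθ0, hθ1, hθ2⟩ : ∃ θ : ℝ, 0 < θ ∧ θ ≤ 1 / 2 ∧ 2 * |K| * θ ≤ η := by
    refine ⟨min (1 / 2) (η / (2 * |K| + 1)), by positivity, min_le_left _ _, ?_⟩
    have h1 : min (1 / 2) (η / (2 * |K| + 1)) ≤ η / (2 * |K| + 1) := min_le_right _ _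
    calc 2 * |K| * min (1 / 2) (η / (2 * |K| + 1)) ≤ (2 * |K| + 1) * (η / (2 * |K| + 1)) := by
          gcongr
          linarith
      _ = η := by field_simp
  set m : ℝ := (F.card : ℝ) with hm
  have hm0 : 0 ≤ m := Nat.cast_nonneg _
  have hg : ∀ᶠ ε : ℝ in 𝓝[>] 0, ∀ x ∈ F, ∀ y ∈ F,
      |(cip ε (v x) (v y)).re / La ε - (if x = y then 1 else 0)| ≤ θ / (m + 1) := by
    rw [Filter.eventually_all_finset]
    intro x hx
    rw [Filter.eventually_all_finset]
    intro y hy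
    have h1 := (hG x hx y hy).sub_const (if x = y then 1 else 0)
    rw [sub_self] at h1
    have h2 := h1.abs
    rw [abs_zero] at h2
    exact (h2.eventually (gt_mem_nhds (show (0 : ℝ) < θ / (m + 1) by positivity))).mono
      fun ε h => le_of_lt h
  have hL : ∀ᶠ ε : ℝ in 𝓝[>] 0, 0 < La ε := log_atTop.eventually_gt_atTop 0
  filter_upwards [hK, hg, hL, self_mem_nhdsWithin] with ε h1 h2 h3 h4
  have hε : 0 < ε := h4
  set s : X → ℝ := fun x => (cip ε u (v x)).re / La ε with hs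
  set U : ℝ := (cip ε u u).re / La ε with hU
  set g : X → X → ℝ := fun x y => (cip ε (v x) (v y)).re / La ε with hgd
  have h5 : 0 ≤ (cip ε u u).re - 2 * ∑ x ∈ F, s x * (cip ε u (v x)).re +
        ∑ x ∈ F, ∑ y ∈ F, s x * s y * (cip ε (v x) (v y)).re :=
    (expand F s hu hv hε).nonneg fun q => by have := (om_pos ε q).le; positivity
  have h6 : 0 ≤ U - 2 * ∑ x ∈ F, s x ^ 2 + ∑ x ∈ F, ∑ y ∈ F, s x * s y * g x y := by
    have h7 := div_nonneg h5 h3.le
    have e1 : (∑ x ∈ F, s x * (cip ε u (v x)).re) / La ε = ∑ x ∈ F, s x ^ 2 := by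
      rw [Finset.sum_div]
      refine Finset.sum_congr rfl fun x _ => ?_
      simp only [hs]
      ring
    have e2 : (∑ x ∈ F, ∑ y ∈ F, s x * s y * (cip ε (v x) (v y)).re) / La ε =
        ∑ x ∈ F, ∑ y ∈ F, s x * s y * g x y := by
      rw [Finset.sum_div]
      refine Finset.sum_congr rfl fun x _ => ?_
      rw [Finset.sum_div]
      refine Finset.sum_congr rfl fun y _ => ?_
      simp only [hgd]
      ring
    rw [add_div, sub_div, mul_div_assoc, e1, e2] at h7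
    exact h7
  have h8 : ∑ x ∈ F, ∑ y ∈ F, s x * s y * g x y ≤ ∑ x ∈ F, s x ^ 2 + θ * ∑ x ∈ F, s x ^ 2 := by
    have e1 : ∑ x ∈ F, ∑ y ∈ F, s x * s y * g x y =
        ∑ x ∈ F, s x ^ 2 + ∑ x ∈ F, ∑ y ∈ F, s x * s y * (g x y - (if x = y then 1 else 0)) := by
      rw [← Finset.sum_add_distrib]
      refine Finset.sum_congr rfl fun x hx => ?_
      have : ∑ y ∈ F, s x * s y * (if x = y then (1 : ℝ) else 0) = s x ^ 2 := by
        simp only [mul_ite, mul_one, mul_zero]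
        rw [Finset.sum_ite_eq F x (fun y => s x * s y), if_pos hx]
        ring
      rw [← this, ← Finset.sum_add_distrib]
      refine Finset.sum_congr rfl fun y _ => ?_
      ring
    rw [e1]
    have e2 : ∑ x ∈ F, ∑ y ∈ F, s x * s y * (g x y - (if x = y then 1 else 0)) ≤
        ∑ x ∈ F, ∑ y ∈ F, (s x ^ 2 + s y ^ 2) / 2 * (θ / (m + 1)) := by
      refine Finset.sum_le_sum fun x hx => Finset.sum_le_sum fun y hy => ?_
      refine (le_abs_self _).trans ?_
      rw [abs_mul]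
      refine mul_le_mul ?_ (h2 x hx y hy) (abs_nonneg _) (by positivity)
      rw [abs_mul]
      nlinarith [sq_abs (s x), sq_abs (s y), sq_nonneg (|s x| - |s y|)]
    have e3 : ∑ x ∈ F, ∑ y ∈ F, (s x ^ 2 + s y ^ 2) / 2 * (θ / (m + 1)) =
        m * (∑ x ∈ F, s x ^ 2) * (θ / (m + 1)) := by
      simp only [← Finset.sum_mul, ← Finset.sum_div]
      simp only [Finset.sum_add_distrib, Finset.sum_const, nsmul_eq_mul, ← Finset.mul_sum]
      rw [← hm]
      ring
    have e4 : m * (∑ x ∈ F, s x ^ 2) * (θ / (m + 1)) ≤ θ * ∑ x ∈ F, s x ^ 2 := by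
      have h9 : 0 ≤ ∑ x ∈ F, s x ^ 2 := Finset.sum_nonneg fun x _ => sq_nonneg _
      have h10 : m / (m + 1) ≤ 1 := by
        rw [div_le_one (by positivity)]
        linarith
      calc m * (∑ x ∈ F, s x ^ 2) * (θ / (m + 1)) = (m / (m + 1)) * (θ * ∑ x ∈ F, s x ^ 2) := by
            ring
        _ ≤ 1 * (θ * ∑ x ∈ F, s x ^ 2) := mul_le_mul_of_nonneg_right h10 (by positivity)
        _ = _ := one_mul _
    linarith
  have h9 : 0 ≤ ∑ x ∈ F, s x ^ 2 := Finset.sum_nonneg fun x _ => sq_nonneg _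
  have h10 : ∑ x ∈ F, s x ^ 2 ≤ U + θ * ∑ x ∈ F, s x ^ 2 := by linarith
  have h11 : ∑ x ∈ F, s x ^ 2 ≤ 2 * |K| := by
    have := le_abs_self K
    nlinarith
  have h12 : θ * ∑ x ∈ F, s x ^ 2 ≤ θ * (2 * |K|) := mul_le_mul_of_nonneg_left h11 hθ0.le
  show ∑ x ∈ F, s x ^ 2 ≤ U + η
  linarith

/-- the distance -/
theorem distance {X : Type} [DecidableEq X] (F : Finset X) {u : Nat.Primes × ℕ → ℂ}
    {v : X → Nat.Primes × ℕ → ℂ} (hu : SqS u) (hv : ∀ x ∈ F, SqS (v x)) {r : ℝ} {n : X → ℝ}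
    (hr : Tendsto (fun ε => (cip ε u u).re / La ε) (𝓝[>] 0) (𝓝 r))
    (hn : ∀ x ∈ F, Tendsto (fun ε => (cip ε u (v x)).re / La ε) (𝓝[>] 0) (𝓝 (n x)))
    (hG : ∀ x ∈ F, ∀ y ∈ F, Tendsto (fun ε => (cip ε (v x) (v y)).re / La ε) (𝓝[>] 0)
      (𝓝 (if x = y then 1 else 0))) :
    Tendsto (fun ε => (∑' q, om ε q * ‖u q - ∑ x ∈ F, (n x : ℂ) * v x q‖ ^ 2) / La ε) (𝓝[>] 0)
      (𝓝 (r - ∑ x ∈ F, n x ^ 2)) := by
  have h1 : Tendsto (fun ε => (cip ε u u).re / La ε - 2 * ∑ x ∈ F, n x * ((cip ε u (v x)).re / La ε)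
      + ∑ x ∈ F, ∑ y ∈ F, n x * n y * ((cip ε (v x) (v y)).re / La ε)) (𝓝[>] 0)
      (𝓝 (r - 2 * ∑ x ∈ F, n x * n x + ∑ x ∈ F, ∑ y ∈ F, n x * n y * (if x = y then 1 else 0))) := by
    refine (hr.sub ((tendsto_finsetSum _ fun x hx => (hn x hx).const_mul (n x)).const_mul 2)).add ?_
    exact tendsto_finsetSum _ fun x hx => tendsto_finsetSum _ fun y hy =>
      (hG x hx y hy).const_mul (n x * n y)
  have e1 : r - 2 * ∑ x ∈ F, n x * n x + ∑ x ∈ F, ∑ y ∈ F, n x * n y * (if x = y then 1 else 0) =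
      r - ∑ x ∈ F, n x ^ 2 := by
    have : ∑ x ∈ F, ∑ y ∈ F, n x * n y * (if x = y then (1 : ℝ) else 0) = ∑ x ∈ F, n x ^ 2 := by
      refine Finset.sum_congr rfl fun x hx => ?_
      simp only [mul_ite, mul_one, mul_zero]
      rw [Finset.sum_ite_eq F x (fun y => n x * n y), if_pos hx]
      ring
    rw [this]
    have h3 : ∑ x ∈ F, n x * n x = ∑ x ∈ F, n x ^ 2 := Finset.sum_congr rfl fun x _ => by ring
    rw [h3]
    ring
  rw [e1] at h1
  refine h1.congr' ?_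
  filter_upwards [self_mem_nhdsWithin] with ε hε
  rw [(expand F n hu hv hε).tsum_eq, add_div, sub_div, mul_div_assoc, Finset.sum_div,
    Finset.sum_div]
  congr 1
  · congr 2
    exact Finset.sum_congr rfl fun x _ => by ring
  · refine Finset.sum_congr rfl fun x _ => ?_
    rw [Finset.sum_div]
    exact Finset.sum_congr rfl fun y _ => by ring

end Run7.h736.AU
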