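import Pool.Agent.Run7.h736.AU.Sys
import Pool.Agent.Y149.TL.Defs

/-! The logarithm of the Euler product and the pairing. -/

set_option autoImplicit false

open Filter Topology Complex ComplexConjugate Polynomial

namespace Run7.h736.AU

open Pool.Agent.Y149.CM (LFun)
open Pool.Agent.Y149.TL (edge)

theorem log_atTop : Tendsto (fun ε : ℝ => Real.log (1 / ε)) (𝓝[>] 0) atTop := by
  have h := Real.tendsto_log_atTop.comp (tendsto_inv_nhdsGT_zero (𝕜 := ℝ))
  refine h.congr fun ε => ?_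
  simp only [Function.comp_apply, one_div]

theorem div_log {f : ℝ → ℝ} {a : ℝ} (h : Tendsto f (𝓝[>] 0) (𝓝 a)) :
    Tendsto (fun ε => f ε / Real.log (1 / ε)) (𝓝[>] 0) (𝓝 0) :=
  h.div_atTop log_atTop

/-- the sum over `k` of the pairing at `p` -/
noncomputable def loc (ε : ℝ) (u v : Nat.Primes × ℕ → ℂ) (p : Nat.Primes) : ℂ :=
  ∑' k : ℕ, (om ε (p, k) : ℂ) * (u (p, k) * conj (v (p, k)))

theorem loc_hasSum {u v : Nat.Primes × ℕ → ℂ} (hu : SqS u) (hv : SqS v) {ε : ℝ} (hε : 0 < ε) :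
    HasSum (loc ε u v) (cip ε u v) :=
  (summable_pair hu hv hε).hasSum.prod_fiberwise fun p =>
    ((summable_pair hu hv hε).comp_injective (Prod.mk_right_injective p)).hasSum

theorem exp_loc {S T : Sys} {p : Nat.Primes} (hS : p ∉ S.bad) (hT : p ∉ T.bad) {ε : ℝ}
    (hε : 0 ≤ ε) : Complex.exp (loc ε S.tr T.tr p) = fac S T p (1 + ε) := by
  obtain ⟨L, h1, h2⟩ := local_log hS hT hε
  unfold loc
  rw [h1.tsum_eq, h2]

theorem loc_bad {S T : Sys} {p : Nat.Primes} (h : p ∈ S.bad ∪ T.bad) (ε : ℝ) :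
    loc ε S.tr T.tr p = 0 := by
  unfold loc
  have : (fun k : ℕ => (om ε (p, k) : ℂ) * (S.tr (p, k) * conj (T.tr (p, k)))) = fun _ => 0 := by
    funext k
    unfold Sys.tr
    rcases Finset.mem_union.1 h with h1 | h1
    · simp [h1]
    · simp [h1]
  rw [this, tsum_zero]

/-- **The Rankin-Selberg product and the pairing.** -/
theorem RS_eq {S T : Sys} (hS : SqS S.tr) (hT : SqS T.tr) {ε : ℝ} (hε : 0 < ε) :
    RS S T (1 + ε) = Complex.exp (cip ε S.tr T.tr) := by
  have h1 := (loc_hasSum hS hT hε).cexp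
  unfold RS
  rw [← h1.tprod_eq]
  refine tprod_congr fun p => ?_
  simp only [Function.comp_apply]
  split_ifs with h
  · rw [loc_bad h, Complex.exp_zero]
  · rw [Finset.mem_union, not_or] at h
    rw [exp_loc h.1 h.2 hε.le]

theorem log_RS {S T : Sys} (hS : SqS S.tr) (hT : SqS T.tr) {ε : ℝ} (hε : 0 < ε) :
    Real.log ‖RS S T (1 + ε)‖ = (cip ε S.tr T.tr).re := by
  rw [RS_eq hS hT hε, Complex.norm_exp, Real.log_exp]

theorem fac_ne {S T : Sys} {p : Nat.Primes} (hS : p ∉ S.bad) (hT : p ∉ T.bad) {ε : ℝ}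
    (hε : 0 ≤ ε) : fac S T p (1 + ε) ≠ 0 := by
  rw [← exp_loc hS hT hε]
  exact Complex.exp_ne_zero _

theorem fac_cont {S T : Sys} {p : Nat.Primes} (hS : p ∉ S.bad) (hT : p ∉ T.bad) :
    Tendsto (fun ε : ℝ => fac S T p (1 + ε)) (𝓝[>] 0) (𝓝 (fac S T p 1)) := by
  have hp : ((p : ℕ) : ℂ) ≠ 0 := by exact_mod_cast p.2.ne_zero
  have h0 := fac_ne hS hT (le_refl (0 : ℝ))
  rw [Complex.ofReal_zero, add_zero] at h0
  have h1 : ContinuousAt (fun s : ℂ => fac S T p s) 1 := by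
    unfold fac
    refine ContinuousAt.inv₀ ?_ ?_
    · refine Continuous.continuousAt ?_
      have : ∀ m : Multiset ℂ, Continuous fun s : ℂ =>
          (m.map fun z => 1 - z * ((p : ℕ) : ℂ) ^ (-s)).prod := by
        intro m
        refine Multiset.induction_on m (by simpa using continuous_const) fun a m ih => ?_
        simp only [Multiset.map_cons, Multiset.prod_cons]
        refine Continuous.mul ?_ ih
        refine continuous_const.sub (continuous_const.mul ?_)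
        exact continuous_neg.const_cpow (Or.inl hp)
      exact this _
    · intro h2
      apply h0
      unfold fac
      rw [h2, inv_zero]
  have h2 : Tendsto (fun ε : ℝ => (1 : ℂ) + (ε : ℂ)) (𝓝[>] 0) (𝓝 1) := by
    have : Continuous fun ε : ℝ => (1 : ℂ) + (ε : ℂ) := by fun_prop
    have h3 := this.tendsto 0
    rw [Complex.ofReal_zero, add_zero] at h3
    exact h3.mono_left nhdsWithin_le_nhds
  exact h1.tendsto.comp h2

/-- **The logarithm of an Euler product.** -/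
theorem euler_link {S T : Sys} (hS : SqS S.tr) (hT : SqS T.tr) {w : ℤ} {τ : ℝ}
    {B : Nat.Primes → ℂ[X]} (F : Finset Nat.Primes) (hF1 : S.bad ⊆ F) (hF2 : T.bad ⊆ F)
    (hB : ∀ p, p ∉ F → ∀ ε : ℝ, 0 ≤ ε →
      ((B p).eval (((p : ℕ) : ℂ) ^ (-(edge w τ + ε))))⁻¹ = fac S T p (1 + ε))
    (hne : ∀ p, (B p).eval (((p : ℕ) : ℂ) ^ (-(edge w τ))) ≠ 0) :
    (∀ᶠ ε : ℝ in 𝓝[>] 0, LFun B (edge w τ + ε) ≠ 0) ∧
    ∃ c : ℝ, Tendsto (fun ε : ℝ => Real.log ‖LFun B (edge w τ + ε)‖ - (cip ε S.tr T.tr).re)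
      (𝓝[>] 0) (𝓝 c) := by
  classical
  set f : ℝ → Nat.Primes → ℂ := fun ε p => ((B p).eval (((p : ℕ) : ℂ) ^ (-(edge w τ + ε))))⁻¹
    with hf
  -- the product
  have hprod : ∀ ε : ℝ, 0 < ε → LFun B (edge w τ + ε) =
      Complex.exp (cip ε S.tr T.tr - ∑ p ∈ F, loc ε S.tr T.tr p) * ∏ p ∈ F, f ε p := by
    intro ε hε
    have h1 := loc_hasSum hS hT hε
    have h2 : HasSum (fun p => if p ∈ F then loc ε S.tr T.tr p else 0)
        (∑ p ∈ F, loc ε S.tr T.tr p) := by
      have h0 : HasSum (fun p => if p ∈ F then loc ε S.tr T.tr p else 0)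
          (∑ p ∈ F, if p ∈ F then loc ε S.tr T.tr p else 0) :=
        hasSum_sum_of_ne_finset_zero (fun p hp => by simp [hp])
      rwa [Finset.sum_congr rfl (fun p hp => by
        show (if p ∈ F then loc ε S.tr T.tr p else 0) = loc ε S.tr T.tr p
        simp [hp])] at h0
    have h3 := (h1.sub h2).cexp
    have h4 : HasProd (fun p => if p ∈ F then f ε p else 1) (∏ p ∈ F, f ε p) := by
      have h0 : HasProd (fun p => if p ∈ F then f ε p else 1)
          (∏ p ∈ F, if p ∈ F then f ε p else 1) :=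
        hasProd_prod_of_ne_finset_one (fun p hp => by simp [hp])
      rwa [Finset.prod_congr rfl (fun p hp => by
        show (if p ∈ F then f ε p else 1) = f ε p
        simp [hp])] at h0
    have h5 := h3.mul h4
    unfold LFun
    rw [← h5.tprod_eq]
    refine tprod_congr fun p => ?_
    simp only [Function.comp_apply]
    by_cases hp : p ∈ F
    · simp [hp, hf]
    · have g1 : p ∉ S.bad := fun h => hp (hF1 h)
      have g2 : p ∉ T.bad := fun h => hp (hF2 h)
      simp only [hp, if_false, sub_zero, mul_one]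
      rw [exp_loc g1 g2 hε.le, hB p hp ε hε.le]
  have hcont : ∀ p, Tendsto (fun ε : ℝ => f ε p) (𝓝[>] 0)
      (𝓝 (((B p).eval (((p : ℕ) : ℂ) ^ (-(edge w τ))))⁻¹)) := by
    intro p
    have hp : ((p : ℕ) : ℂ) ≠ 0 := by exact_mod_cast p.2.ne_zero
    refine Tendsto.inv₀ ?_ (hne p)
    have : Continuous fun ε : ℝ => (B p).eval (((p : ℕ) : ℂ) ^ (-(edge w τ + (ε : ℂ)))) := by
      refine (B p).continuous.comp ?_
      refine Continuous.const_cpow ?_ (Or.inl hp)
      fun_prop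
    have h3 := this.tendsto 0
    rw [Complex.ofReal_zero, add_zero] at h3
    exact h3.mono_left nhdsWithin_le_nhds
  have hfne : ∀ᶠ ε : ℝ in 𝓝[>] 0, ∀ p ∈ F, f ε p ≠ 0 := by
    rw [Filter.eventually_all_finset]
    exact fun p _ => (hcont p).eventually_ne (inv_ne_zero (hne p))
  have hloc : ∀ p, ∃ c : ℝ, Tendsto (fun ε : ℝ => (loc ε S.tr T.tr p).re) (𝓝[>] 0) (𝓝 c) := by
    intro p
    by_cases h : p ∈ S.bad ∪ T.bad
    · refine ⟨0, ?_⟩
      have : (fun ε : ℝ => (loc ε S.tr T.tr p).re) = fun _ => 0 := by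
        funext ε
        rw [loc_bad h, Complex.zero_re]
      rw [this]
      exact tendsto_const_nhds
    · rw [Finset.mem_union, not_or] at h
      have h0 := fac_ne h.1 h.2 (le_refl (0 : ℝ))
      rw [Complex.ofReal_zero, add_zero] at h0
      refine ⟨Real.log ‖fac S T p 1‖, ?_⟩
      have h1 := (fac_cont h.1 h.2).norm.log (norm_ne_zero_iff.2 h0)
      refine h1.congr' ?_
      filter_upwards [self_mem_nhdsWithin] with ε hε
      rw [← exp_loc h.1 h.2 (le_of_lt hε), Complex.norm_exp, Real.log_exp]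
  choose c hc using hloc
  refine ⟨?_, ?_⟩
  · filter_upwards [hfne, self_mem_nhdsWithin] with ε h1 hε
    rw [hprod ε hε]
    exact mul_ne_zero (Complex.exp_ne_zero _) (Finset.prod_ne_zero_iff.2 h1)
  · refine ⟨∑ p ∈ F, (Real.log ‖((B p).eval (((p : ℕ) : ℂ) ^ (-(edge w τ))))⁻¹‖ - c p), ?_⟩
    have h1 : Tendsto (fun ε : ℝ => ∑ p ∈ F, (Real.log ‖f ε p‖ - (loc ε S.tr T.tr p).re)) (𝓝[>] 0)
        (𝓝 (∑ p ∈ F, (Real.log ‖((B p).eval (((p : ℕ) : ℂ) ^ (-(edge w τ))))⁻¹‖ - c p))) :=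
      tendsto_finsetSum _ fun p _ => ((hcont p).norm.log
        (norm_ne_zero_iff.2 (inv_ne_zero (hne p)))).sub (hc p)
    refine h1.congr' ?_
    filter_upwards [hfne, self_mem_nhdsWithin] with ε h2 hε
    rw [hprod ε hε, norm_mul, Complex.norm_exp, Real.log_mul (Real.exp_pos _).ne'
      (norm_ne_zero_iff.2 (Finset.prod_ne_zero_iff.2 h2)), Real.log_exp, norm_prod,
      Real.log_prod (fun p hp => norm_ne_zero_iff.2 (h2 p hp)), Complex.sub_re, Complex.re_sum,
      Finset.sum_sub_distrib]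
    ring

end Run7.h736.AU
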