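import Pool.Agent.Run7.h736.AU.Mean

/-! The theorems. -/

set_option autoImplicit false

open Filter Topology Complex ComplexConjugate Finset Polynomial

namespace Run7.h736.AU

open Pool.Agent.Y149.CM (LFun)
open Pool.Agent.Y149.TL (Motive IsEuler edge size HasOrder)

/-- The normalised trace of Frobenius on `M` at `p`. -/
noncomputable def ntr (M : Motive) (p : Nat.Primes) : ℂ :=
  (M.frob p).sum * ((p : ℕ) : ℂ) ^ (-((M.weight : ℂ) / 2))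

/-- The trace at `p` of the Satake parameters of `π_e ⊗ |det|^(-iτ)`, `x = (e, τ)`. -/
noncomputable def atr {ι : Type} (π : ι → Sys) (x : ι × ℝ) (p : Nat.Primes) : ℂ :=
  ((π x.1).ev p).sum * ((p : ℕ) : ℂ) ^ ((x.2 : ℂ) * I)

theorem ps_one (s : Multiset ℂ) : ps s 1 = s.sum := by
  unfold ps
  simp

theorem msys_ntr {M : Motive} {p : Nat.Primes} (hp : p ∉ (msys M).bad) :
    (msys M).tr (p, 0) = ntr M p := by
  unfold Sys.tr ntr
  simp only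
  rw [if_neg hp]
  have e2 : (msys M).ev p = (M.frob p).map fun z => nrm M.weight p * z := rfl
  rw [e2, ps_smul, zero_add, ps_one, pow_one, mul_comm]
  rfl

section
variable {ι : Type} {π : ι → Sys}

theorem vec_atr {x : ι × ℝ} {p : Nat.Primes} (hp : p ∉ (π x.1).bad) :
    vec π x (p, 0) = atr π x p := by
  unfold vec atr
  rw [twist_tr]
  unfold Sys.tr
  simp only
  rw [if_neg hp, zero_add, pow_one, ps_one, mul_comm]

theorem vec_hi {x : ι × ℝ} (h : Hi (π x.1).tr) : Hi (vec π x) := by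
  refine Summable.congr h fun q => ?_
  unfold vec
  rw [twist_norm]

theorem perturb {X : Type} (S : Finset X) {a b : X → ℝ → ℝ} {W : ℝ → ℝ} {K : ℝ}
    (hb : ∀ η : ℝ, 0 < η → ∀ᶠ ε : ℝ in 𝓝[>] 0, ∑ x ∈ S, b x ε ^ 2 ≤ W ε + η)
    (hW : ∀ᶠ ε : ℝ in 𝓝[>] 0, W ε ≤ K)
    (hab : ∀ x ∈ S, Tendsto (fun ε => a x ε - b x ε) (𝓝[>] 0) (𝓝 0)) {η : ℝ} (hη : 0 < η) :
    ∀ᶠ ε : ℝ in 𝓝[>] 0, ∑ x ∈ S, a x ε ^ 2 ≤ W ε + η := by
  set R : ℝ := Real.sqrt (|K| + 1) with hR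
  have hR2 : R ^ 2 = |K| + 1 := Real.sq_sqrt (by positivity)
  have hR0 : 0 ≤ R := Real.sqrt_nonneg _
  have hD : Tendsto (fun ε => ∑ x ∈ S, (2 * R * |a x ε - b x ε| + (a x ε - b x ε) ^ 2)) (𝓝[>] 0)
      (𝓝 (∑ x ∈ S, (2 * R * |(0 : ℝ)| + (0 : ℝ) ^ 2))) :=
    tendsto_finsetSum _ fun x hx => ((hab x hx).abs.const_mul (2 * R)).add ((hab x hx).pow 2)
  have e0 : ∑ x ∈ S, (2 * R * |(0 : ℝ)| + (0 : ℝ) ^ 2) = 0 := by simp
  rw [e0] at hD
  filter_upwards [hb (η / 2) (half_pos hη), hb 1 one_pos, hW,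
    hD.eventually (gt_mem_nhds (half_pos hη))] with ε h1 h2 h3 h4
  have h5 : ∀ x ∈ S, |b x ε| ≤ R := by
    intro x hx
    have h6 : b x ε ^ 2 ≤ ∑ x ∈ S, b x ε ^ 2 :=
      Finset.single_le_sum (f := fun x => b x ε ^ 2) (fun y _ => sq_nonneg _) hx
    have h7 : b x ε ^ 2 ≤ R ^ 2 := by
      rw [hR2]
      have := le_abs_self K
      linarith
    exact abs_le_of_sq_le_sq h7 hR0
  have h6 : ∑ x ∈ S, a x ε ^ 2 ≤ ∑ x ∈ S, b x ε ^ 2 +
      ∑ x ∈ S, (2 * R * |a x ε - b x ε| + (a x ε - b x ε) ^ 2) := by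
    rw [← Finset.sum_add_distrib]
    refine Finset.sum_le_sum fun x hx => ?_
    have h7 := h5 x hx
    have h8 : b x ε * (a x ε - b x ε) ≤ R * |a x ε - b x ε| := by
      refine (le_abs_self _).trans ?_
      rw [abs_mul]
      exact mul_le_mul_of_nonneg_right h7 (abs_nonneg _)
    nlinarith
  linarith

/-- **The general inequality.** -/
theorem core (h : IsCuspidal π) {u : Nat.Primes × ℕ → ℂ} (hu : SqS u) {K : ℝ}
    (hK : ∀ η : ℝ, 0 < η → ∀ᶠ ε : ℝ in 𝓝[>] 0, (cip ε u u).re / La ε ≤ K + η)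
    (S : Finset (ι × ℝ)) {a : ι × ℝ → ℝ → ℝ}
    (ha : ∀ x ∈ S, Tendsto (fun ε => a x ε - (cip ε u (vec π x)).re / La ε) (𝓝[>] 0) (𝓝 0))
    {η : ℝ} (hη : 0 < η) :
    ∀ᶠ ε : ℝ in 𝓝[>] 0, ∑ x ∈ S, a x ε ^ 2 ≤ (cip ε u u).re / La ε + η := by
  classical
  exact perturb S (fun η hη => bessel S hu (fun x _ => vec_sqs h x) (hK 1 one_pos)
    (fun x _ y _ => gram h x y) hη) (hK 1 one_pos) ha hη

/-- **One motive, the mean square.** -/
theorem one_mean (h : IsCuspidal π) (M : Motive) (S : Finset (ι × ℝ))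
    {B : ι × ℝ → Nat.Primes → ℂ[X]} (hB : ∀ x ∈ S, IsTwist M (π x.1) (B x)) {η : ℝ} (hη : 0 < η) :
    ∀ᶠ ε : ℝ in 𝓝[>] 0, (∀ x ∈ S, LFun (B x) (edge M.weight x.2 + ε) ≠ 0) ∧
      ∑ x ∈ S, size M.weight (B x) x.2 ε ^ 2 ≤ (cip ε (msys M).tr (msys M).tr).re / La ε + η := by
  have h1 : ∀ᶠ ε : ℝ in 𝓝[>] 0, ∀ x ∈ S, LFun (B x) (edge M.weight x.2 + ε) ≠ 0 := by
    rw [Filter.eventually_all_finset]
    exact fun x hx => (size_twist (h.conv x.1) (hB x hx) x.2).1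
  exact h1.and (core h (msys_sqs M) (fun η hη => norm_bdd (msys_tr_le M) hη) S
    (a := fun x ε => size M.weight (B x) x.2 ε)
    (fun x hx => (size_twist (h.conv x.1) (hB x hx) x.2).2) hη)

theorem one_mean_rank (h : IsCuspidal π) (M : Motive) (S : Finset (ι × ℝ))
    {B : ι × ℝ → Nat.Primes → ℂ[X]} (hB : ∀ x ∈ S, IsTwist M (π x.1) (B x)) {η : ℝ} (hη : 0 < η) :
    ∀ᶠ ε : ℝ in 𝓝[>] 0, (∀ x ∈ S, LFun (B x) (edge M.weight x.2 + ε) ≠ 0) ∧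
      ∑ x ∈ S, size M.weight (B x) x.2 ε ^ 2 ≤ (M.rank : ℝ) ^ 2 + η := by
  filter_upwards [one_mean h M S hB (half_pos hη), norm_bdd (msys_tr_le M) (half_pos hη)]
    with ε h1 h2
  exact ⟨h1.1, by linarith [h1.2]⟩

theorem one_mean_square (h : IsCuspidal π) (M : Motive) {D : Nat.Primes → ℂ[X]}
    (hD : IsSquare M D) (S : Finset (ι × ℝ))
    {B : ι × ℝ → Nat.Primes → ℂ[X]} (hB : ∀ x ∈ S, IsTwist M (π x.1) (B x)) {η : ℝ} (hη : 0 < η) :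
    ∀ᶠ ε : ℝ in 𝓝[>] 0,
      ∑ x ∈ S, size M.weight (B x) x.2 ε ^ 2 ≤ size (2 * M.weight) D 0 ε + η ∧
      size (2 * M.weight) D 0 ε ≤ (M.rank : ℝ) ^ 2 + η := by
  have h3 := (size_square hD).2
  have h4 : ∀ᶠ ε : ℝ in 𝓝[>] 0, |size (2 * M.weight) D 0 ε -
      (cip ε (msys M).tr (msys M).tr).re / La ε| < η / 2 := by
    have h5 := h3.abs
    rw [abs_zero] at h5
    exact h5.eventually (gt_mem_nhds (half_pos hη))
  filter_upwards [one_mean h M S hB (half_pos hη), norm_bdd (msys_tr_le M) (half_pos hη), h4]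
    with ε h1 h2 h5
  rw [abs_lt] at h5
  exact ⟨by linarith [h1.2], by linarith⟩

/-- **One motive, the orders.** -/
theorem one_order (h : IsCuspidal π) (M : Motive) (S : Finset (ι × ℝ))
    {B : ι × ℝ → Nat.Primes → ℂ[X]} (hB : ∀ x ∈ S, IsTwist M (π x.1) (B x)) {r : ι × ℝ → ℤ}
    (hr : ∀ x ∈ S, HasOrder M.weight (B x) x.2 (r x)) :
    ∑ x ∈ S, r x ^ 2 ≤ (M.rank : ℤ) ^ 2 := by
  have h1 : ∑ x ∈ S, (r x : ℝ) ^ 2 ≤ (M.rank : ℝ) ^ 2 := by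
    refine le_of_forall_pos_le_add fun η hη => ?_
    have h2 : Tendsto (fun ε : ℝ => ∑ x ∈ S, size M.weight (B x) x.2 ε ^ 2) (𝓝[>] 0)
        (𝓝 (∑ x ∈ S, (-(r x) : ℝ) ^ 2)) :=
      tendsto_finsetSum _ fun x hx => (size_order (hr x hx)).pow 2
    simp only [neg_sq] at h2
    exact le_of_tendsto h2 ((one_mean_rank h M S hB hη).mono fun ε h3 => h3.2)
  exact_mod_cast h1

theorem one_order_square (h : IsCuspidal π) (M : Motive) {D : Nat.Primes → ℂ[X]}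
    (hD : IsSquare M D) {k : ℤ} (hk : HasOrder (2 * M.weight) D 0 (-k)) (S : Finset (ι × ℝ))
    {B : ι × ℝ → Nat.Primes → ℂ[X]} (hB : ∀ x ∈ S, IsTwist M (π x.1) (B x)) {r : ι × ℝ → ℤ}
    (hr : ∀ x ∈ S, HasOrder M.weight (B x) x.2 (r x)) :
    ∑ x ∈ S, r x ^ 2 ≤ k ∧ k ≤ (M.rank : ℤ) ^ 2 := by
  have hk' : Tendsto (fun ε : ℝ => size (2 * M.weight) D 0 ε) (𝓝[>] 0) (𝓝 (k : ℝ)) := by
    have := size_order hk
    simpa using this
  have h1 : ∑ x ∈ S, (r x : ℝ) ^ 2 ≤ (k : ℝ) := by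
    refine le_of_forall_pos_le_add fun η hη => ?_
    have h2 : Tendsto (fun ε : ℝ => ∑ x ∈ S, size M.weight (B x) x.2 ε ^ 2) (𝓝[>] 0)
        (𝓝 (∑ x ∈ S, (-(r x) : ℝ) ^ 2)) :=
      tendsto_finsetSum _ fun x hx => (size_order (hr x hx)).pow 2
    simp only [neg_sq] at h2
    exact le_of_tendsto_of_tendsto h2 (hk'.add_const η)
      ((one_mean_square h M hD S hB hη).mono fun ε h3 => h3.1)
  have h2 : (k : ℝ) ≤ (M.rank : ℝ) ^ 2 := by
    refine le_of_forall_pos_le_add fun η hη => ?_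
    exact le_of_tendsto hk' ((one_mean_square h M hD S hB hη).mono fun ε h3 => h3.2)
  constructor
  · exact_mod_cast h1
  · exact_mod_cast h2

/-- the pairs with a zero or a pole -/
def exc (π : ι → Sys) (M : Motive) : Set (ι × ℝ) :=
  {x | ∃ (B : Nat.Primes → ℂ[X]) (r : ℤ), IsTwist M (π x.1) B ∧ HasOrder M.weight B x.2 r ∧ r ≠ 0}

/-- **The exceptional set.** -/
theorem exceptional (h : IsCuspidal π) (M : Motive) :
    ∃ E : Finset (ι × ℝ), E.card ≤ M.rank ^ 2 ∧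
      (∀ (D : Nat.Primes → ℂ[X]) (k : ℤ), IsSquare M D → HasOrder (2 * M.weight) D 0 (-k) →
        (E.card : ℤ) ≤ k) ∧
      ∀ (x : ι × ℝ) (B : Nat.Primes → ℂ[X]), IsTwist M (π x.1) B → ∀ r : ℤ,
        HasOrder M.weight B x.2 r → x ∉ E → r = 0 := by
  classical
  have key : ∀ T : Finset (ι × ℝ), (∀ x ∈ T, x ∈ exc π M) → ∃ (B : ι × ℝ → Nat.Primes → ℂ[X])
      (r : ι × ℝ → ℤ), (∀ x ∈ T, IsTwist M (π x.1) (B x)) ∧
      (∀ x ∈ T, HasOrder M.weight (B x) x.2 (r x)) ∧ (T.card : ℤ) ≤ ∑ x ∈ T, r x ^ 2 := by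
    intro T hT
    choose! B r h1 h2 h3 using hT
    refine ⟨B, r, h1, h2, ?_⟩
    have h4 : ∑ x ∈ T, (1 : ℤ) ≤ ∑ x ∈ T, r x ^ 2 := by
      refine Finset.sum_le_sum fun x hx => ?_
      have := h3 x hx
      have h5 : 0 < r x ^ 2 := by positivity
      omega
    simpa using h4
  have hcard : ∀ T : Finset (ι × ℝ), (∀ x ∈ T, x ∈ exc π M) → T.card ≤ M.rank ^ 2 := by
    intro T hT
    obtain ⟨B, r, h1, h2, h3⟩ := key T hT
    have h4 := one_order h M T h1 h2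
    have h5 : (T.card : ℤ) ≤ (M.rank : ℤ) ^ 2 := h3.trans h4
    exact_mod_cast h5
  have hfin : (exc π M).Finite := by
    by_contra hinf
    obtain ⟨T, hT1, hT2⟩ := (Set.not_finite.1 hinf).exists_subset_card_eq (M.rank ^ 2 + 1)
    have := hcard T fun x hx => hT1 (Finset.mem_coe.2 hx)
    omega
  refine ⟨hfin.toFinset, hcard _ fun x hx => (Set.Finite.mem_toFinset _).1 hx, ?_, ?_⟩
  · intro D k hD hk
    obtain ⟨B, r, h1, h2, h3⟩ := key hfin.toFinset fun x hx => (Set.Finite.mem_toFinset _).1 hx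
    exact h3.trans (one_order_square h M hD hk _ h1 h2).1
  · intro x B hB r hr hx
    by_contra h0
    exact hx ((Set.Finite.mem_toFinset _).2 ⟨B, r, hB, hr, h0⟩)

end

end Run7.h736.AU
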