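import Pool.Agent.Run7.h736.AU.Mot

/-! Mean squares over the primes. -/

set_option autoImplicit false

open Filter Topology Complex ComplexConjugate Finset Polynomial

namespace Run7.h736.AU

open Pool.Agent.Y149.CM (LFun)
open Pool.Agent.Y149.TL (Motive IsEuler edge size HasOrder)

/-- The mean square of `f` over the primes is at most `K`: for all `η > 0` and all small `ε > 0` the series
`∑_p |f(p)|² p^{-1-ε}` converges and is at most `(K + η) log (1 / ε)`. -/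
def MeanSqLE (f : Nat.Primes → ℂ) (K : ℝ) : Prop :=
  ∀ η : ℝ, 0 < η → ∀ᶠ ε : ℝ in 𝓝[>] 0,
    Summable (fun p : Nat.Primes => ((p : ℕ) : ℝ) ^ (-(1 + ε)) * ‖f p‖ ^ 2) ∧
    ∑' p : Nat.Primes, ((p : ℕ) : ℝ) ^ (-(1 + ε)) * ‖f p‖ ^ 2 ≤ (K + η) * Real.log (1 / ε)

/-- the terms with prime powers converge at the edge -/
def Hi (u : Nat.Primes × ℕ → ℂ) : Prop :=
  Summable fun q : Nat.Primes × ℕ => om 0 (q.1, q.2 + 1) * ‖u (q.1, q.2 + 1)‖ ^ 2

theorem om_mono {ε : ℝ} (hε : 0 ≤ ε) (q : Nat.Primes × ℕ) : om ε q ≤ om 0 q := by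
  have hp : (1 : ℝ) ≤ ((q.1 : ℕ) : ℝ) := by exact_mod_cast q.1.2.one_lt.le
  unfold om
  have h1 : ((q.1 : ℕ) : ℝ) ^ (-((q.2 + 1 : ℝ) * (1 + ε))) ≤
      ((q.1 : ℕ) : ℝ) ^ (-((q.2 + 1 : ℝ) * (1 + 0))) := by
    refine Real.rpow_le_rpow_of_exponent_le hp ?_
    have : (0 : ℝ) ≤ (q.2 : ℝ) := Nat.cast_nonneg _
    nlinarith
  exact div_le_div_of_nonneg_right h1 (by positivity)

theorem om_zero (ε : ℝ) (p : Nat.Primes) : om ε (p, 0) = ((p : ℕ) : ℝ) ^ (-(1 + ε)) := by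
  unfold om
  simp

theorem om_le_one {ε : ℝ} (hε : 0 ≤ ε) (q : Nat.Primes × ℕ) : om ε q ≤ 1 := by
  have hp : (1 : ℝ) ≤ ((q.1 : ℕ) : ℝ) := by exact_mod_cast q.1.2.one_lt.le
  have h0 : (0 : ℝ) ≤ (q.2 : ℝ) := Nat.cast_nonneg _
  unfold om
  have h1 : ((q.1 : ℕ) : ℝ) ^ (-((q.2 + 1 : ℝ) * (1 + ε))) ≤ 1 :=
    Real.rpow_le_one_of_one_le_of_nonpos hp (by nlinarith)
  rw [div_le_one (by positivity)]
  linarith

theorem hi_bdd {u : Nat.Primes × ℕ → ℂ} {A : ℝ} (h : ∀ q, ‖u q‖ ≤ A) : Hi u := by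
  have hsum : Summable fun q : Nat.Primes × ℕ => om 0 (q.1, q.2 + 1) := by
    obtain ⟨C, hC, h1⟩ := sum_high
    refine summable_of_sum_le (c := C) (fun q => (om_pos 0 _).le) fun s => ?_
    have h2 : Tendsto (fun ε : ℝ => ∑ q ∈ s, om ε (q.1, q.2 + 1)) (𝓝[>] 0)
        (𝓝 (∑ q ∈ s, om 0 (q.1, q.2 + 1))) := by
      refine tendsto_finsetSum _ fun q _ => ?_
      have hp : (0 : ℝ) < ((q.1 : ℕ) : ℝ) := by exact_mod_cast q.1.2.pos
      have : Continuous fun ε : ℝ => om ε (q.1, q.2 + 1) := by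
        unfold om
        refine Continuous.div_const ?_ _
        refine Continuous.rpow continuous_const (by fun_prop) fun ε => Or.inl hp.ne'
      exact (this.tendsto 0).mono_left nhdsWithin_le_nhds
    refine le_of_tendsto h2 ?_
    filter_upwards [self_mem_nhdsWithin] with ε hε
    obtain ⟨h3, h4⟩ := h1 ε hε
    exact (h3.sum_le_tsum s fun q _ => (om_pos ε _).le).trans h4
  refine Summable.of_nonneg_of_le (fun q => by have := (om_pos 0 (q.1, q.2 + 1)).le; positivity)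
    (fun q => ?_) (hsum.mul_right (A ^ 2))
  exact mul_le_mul_of_nonneg_left (pow_le_pow_left₀ (norm_nonneg _) (h _) 2) (om_pos 0 _).le

theorem Hi.smul {u : Nat.Primes × ℕ → ℂ} (hu : Hi u) (c : ℂ) : Hi fun q => c * u q := by
  refine (hu.mul_left (‖c‖ ^ 2)).congr fun q => ?_
  rw [norm_mul]
  ring

theorem Hi.add {u v : Nat.Primes × ℕ → ℂ} (hu : Hi u) (hv : Hi v) : Hi fun q => u q + v q := by
  refine Summable.of_nonneg_of_le (fun q => by have := (om_pos 0 (q.1, q.2 + 1)).le; positivity)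
    (fun q => ?_) ((Summable.add hu hv).mul_left 2)
  have h1 := norm_add_le (u (q.1, q.2 + 1)) (v (q.1, q.2 + 1))
  have h2 := om_pos 0 (q.1, q.2 + 1)
  have h3 : ‖u (q.1, q.2 + 1) + v (q.1, q.2 + 1)‖ ^ 2 ≤
      2 * (‖u (q.1, q.2 + 1)‖ ^ 2 + ‖v (q.1, q.2 + 1)‖ ^ 2) := by
    nlinarith [norm_nonneg (u (q.1, q.2 + 1) + v (q.1, q.2 + 1)), norm_nonneg (u (q.1, q.2 + 1)),
      norm_nonneg (v (q.1, q.2 + 1)), sq_nonneg (‖u (q.1, q.2 + 1)‖ - ‖v (q.1, q.2 + 1)‖)]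
  nlinarith

theorem Hi.sum {X : Type} (F : Finset X) {v : X → Nat.Primes × ℕ → ℂ} (hv : ∀ x ∈ F, Hi (v x)) :
    Hi fun q => ∑ x ∈ F, v x q := by
  classical
  induction F using Finset.induction_on with
  | empty =>
    unfold Hi
    simp
  | insert a F ha ih =>
    have h1 := (hv a (Finset.mem_insert_self _ _)).add
      (ih fun x hx => hv x (Finset.mem_insert_of_mem hx))
    refine Summable.congr h1 fun q => ?_
    simp only [Finset.sum_insert ha]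

/-- the first powers and the others -/
theorem split {f : Nat.Primes × ℕ → ℝ} (hf : Summable f) :
    Summable (fun p : Nat.Primes => f (p, 0)) ∧
    Summable (fun q : Nat.Primes × ℕ => f (q.1, q.2 + 1)) ∧
    ∑' q, f q = ∑' p : Nat.Primes, f (p, 0) + ∑' q : Nat.Primes × ℕ, f (q.1, q.2 + 1) := by
  classical
  have i0 : Function.Injective fun p : Nat.Primes => (p, 0) := fun a b h => (Prod.mk.inj h).1
  have i1 : Function.Injective fun q : Nat.Primes × ℕ => (q.1, q.2 + 1) := fun a b h => by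
    have h1 := (Prod.mk.inj h).1
    have h2 := (Prod.mk.inj h).2
    exact Prod.ext h1 (by omega)
  have s0 : Summable fun p : Nat.Primes => f (p, 0) := hf.comp_injective i0
  have s1 : Summable fun q : Nat.Primes × ℕ => f (q.1, q.2 + 1) := hf.comp_injective i1
  refine ⟨s0, s1, ?_⟩
  set f0 : Nat.Primes × ℕ → ℝ := fun q => if q.2 = 0 then f q else 0 with hf0
  set f1 : Nat.Primes × ℕ → ℝ := fun q => if q.2 = 0 then 0 else f q with hf1
  have e0 : ∑' p : Nat.Primes, f0 (p, 0) = ∑' q, f0 q := by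
    refine i0.tsum_eq (f := f0) fun q hq => ?_
    have : q.2 = 0 := by
      by_contra h
      exact hq (by simp [hf0, h])
    exact ⟨q.1, Prod.ext rfl this.symm⟩
  have e1 : ∑' q : Nat.Primes × ℕ, f1 (q.1, q.2 + 1) = ∑' q, f1 q := by
    refine i1.tsum_eq (f := f1) fun q hq => ?_
    have : q.2 ≠ 0 := by
      intro h
      exact hq (by simp [hf1, h])
    exact ⟨(q.1, q.2 - 1), Prod.ext rfl (by simp only; omega)⟩
  have t0 : Summable f0 := by
    refine Summable.of_norm_bounded hf.norm fun q => ?_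
    simp only [hf0]
    split_ifs <;> simp
  have t1 : Summable f1 := by
    refine Summable.of_norm_bounded hf.norm fun q => ?_
    simp only [hf1]
    split_ifs <;> simp
  have e2 : ∑' q, f q = ∑' q, f0 q + ∑' q, f1 q := by
    rw [← t0.tsum_add t1]
    refine tsum_congr fun q => ?_
    simp only [hf0, hf1]
    split_ifs <;> simp
  rw [e2, ← e0, ← e1]
  simp [hf0, hf1]

/-- **From the mean square over the primes to the norm.** -/
theorem norm_of_mean {u : Nat.Primes × ℕ → ℂ} (hu : SqS u) (hi : Hi u) {f : Nat.Primes → ℂ}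
    (F : Finset Nat.Primes) (hf : ∀ p, p ∉ F → u (p, 0) = f p) {K : ℝ} (hK : MeanSqLE f K)
    {η : ℝ} (hη : 0 < η) : ∀ᶠ ε : ℝ in 𝓝[>] 0, (cip ε u u).re / La ε ≤ K + η := by
  classical
  set C : ℝ := (∑' q : Nat.Primes × ℕ, om 0 (q.1, q.2 + 1) * ‖u (q.1, q.2 + 1)‖ ^ 2) +
    ∑ p ∈ F, ‖u (p, 0)‖ ^ 2 with hC
  have hlim : Tendsto (fun ε => C / La ε) (𝓝[>] 0) (𝓝 0) := div_log tendsto_const_nhds
  filter_upwards [hK (η / 2) (by positivity), hlim.eventually (gt_mem_nhds (half_pos hη)),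
    self_mem_nhdsWithin, log_atTop.eventually_gt_atTop 0] with ε h1 h2 h3 h4
  have hε : 0 < ε := h3
  have hL : 0 < La ε := h4
  have hs := self_hasSum hu hε
  obtain ⟨a1, a2, a3⟩ := split hs.summable
  rw [← hs.tsum_eq, a3]
  have b1 : ∑' q : Nat.Primes × ℕ, om ε (q.1, q.2 + 1) * ‖u (q.1, q.2 + 1)‖ ^ 2 ≤
      ∑' q : Nat.Primes × ℕ, om 0 (q.1, q.2 + 1) * ‖u (q.1, q.2 + 1)‖ ^ 2 :=
    a2.tsum_le_tsum (fun q => mul_le_mul_of_nonneg_right (om_mono hε.le _) (by positivity)) hi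
  have b2 : ∑' p : Nat.Primes, om ε (p, 0) * ‖u (p, 0)‖ ^ 2 ≤
      ∑' p : Nat.Primes, ((p : ℕ) : ℝ) ^ (-(1 + ε)) * ‖f p‖ ^ 2 + ∑ p ∈ F, ‖u (p, 0)‖ ^ 2 := by
    have c1 : HasSum (fun p => if p ∈ F then ‖u (p, 0)‖ ^ 2 else 0) (∑ p ∈ F, ‖u (p, 0)‖ ^ 2) := by
      have h0 : HasSum (fun p => if p ∈ F then ‖u (p, 0)‖ ^ 2 else 0)
          (∑ p ∈ F, if p ∈ F then ‖u (p, 0)‖ ^ 2 else 0) :=
        hasSum_sum_of_ne_finset_zero (fun p hp => by simp [hp])
      rwa [Finset.sum_congr rfl (fun p hp => by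
        show (if p ∈ F then ‖u (p, 0)‖ ^ 2 else 0) = ‖u (p, 0)‖ ^ 2
        simp [hp])] at h0
    have c2 := h1.1.hasSum.add c1
    rw [← c2.tsum_eq]
    refine a1.tsum_le_tsum (fun p => ?_) c2.summable
    rw [om_zero]
    have c3 : (0 : ℝ) ≤ ((p : ℕ) : ℝ) ^ (-(1 + ε)) := by positivity
    split_ifs with hp
    · have c4 := om_le_one hε.le (p, 0)
      rw [om_zero] at c4
      have c5 : ((p : ℕ) : ℝ) ^ (-(1 + ε)) * ‖u (p, 0)‖ ^ 2 ≤ 1 * ‖u (p, 0)‖ ^ 2 :=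
        mul_le_mul_of_nonneg_right c4 (by positivity)
      have c6 : 0 ≤ ((p : ℕ) : ℝ) ^ (-(1 + ε)) * ‖f p‖ ^ 2 := by positivity
      linarith
    · rw [hf p hp, add_zero]
  rw [div_le_iff₀ hL]
  have h5 : C ≤ η / 2 * La ε := by
    rw [div_lt_iff₀ hL] at h2
    exact h2.le
  have h6 := h1.2
  have h7 : Real.log (1 / ε) = La ε := rfl
  rw [h7] at h6
  rw [hC] at h5
  nlinarith

/-- **From the norm to the mean square over the primes.** -/
theorem mean_of_norm {u : Nat.Primes × ℕ → ℂ} (hu : SqS u) {f : Nat.Primes → ℂ}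
    (F : Finset Nat.Primes) (hf : ∀ p, p ∉ F → u (p, 0) = f p) {K : ℝ}
    (hK : Tendsto (fun ε => (∑' q, om ε q * ‖u q‖ ^ 2) / La ε) (𝓝[>] 0) (𝓝 K)) :
    MeanSqLE f K := by
  classical
  intro η hη
  set C : ℝ := ∑ p ∈ F, ‖f p‖ ^ 2 with hC
  have hlim : Tendsto (fun ε => C / La ε) (𝓝[>] 0) (𝓝 0) := div_log tendsto_const_nhds
  filter_upwards [hK.eventually (gt_mem_nhds (show K < K + η / 2 by linarith)),
    hlim.eventually (gt_mem_nhds (half_pos hη)),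
    self_mem_nhdsWithin, log_atTop.eventually_gt_atTop 0] with ε h1 h2 h3 h4
  have hε : 0 < ε := h3
  have hL : 0 < La ε := h4
  have hs := self_hasSum hu hε
  obtain ⟨a1, a2, a3⟩ := split hs.summable
  have c1 : HasSum (fun p => if p ∈ F then ‖f p‖ ^ 2 else 0) C := by
    have h0 : HasSum (fun p => if p ∈ F then ‖f p‖ ^ 2 else 0)
        (∑ p ∈ F, if p ∈ F then ‖f p‖ ^ 2 else 0) :=
      hasSum_sum_of_ne_finset_zero (fun p hp => by simp [hp])
    rwa [Finset.sum_congr rfl (fun p hp => by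
      show (if p ∈ F then ‖f p‖ ^ 2 else 0) = ‖f p‖ ^ 2
      simp [hp])] at h0
  have c2 := a1.hasSum.add c1
  have hle : ∀ p : Nat.Primes, ((p : ℕ) : ℝ) ^ (-(1 + ε)) * ‖f p‖ ^ 2 ≤
      om ε (p, 0) * ‖u (p, 0)‖ ^ 2 + (if p ∈ F then ‖f p‖ ^ 2 else 0) := by
    intro p
    rw [om_zero]
    have c3 : (0 : ℝ) ≤ ((p : ℕ) : ℝ) ^ (-(1 + ε)) := by positivity
    split_ifs with hp
    · have c4 := om_le_one hε.le (p, 0)
      rw [om_zero] at c4
      have c5 : ((p : ℕ) : ℝ) ^ (-(1 + ε)) * ‖f p‖ ^ 2 ≤ 1 * ‖f p‖ ^ 2 :=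
        mul_le_mul_of_nonneg_right c4 (by positivity)
      have c6 : 0 ≤ ((p : ℕ) : ℝ) ^ (-(1 + ε)) * ‖u (p, 0)‖ ^ 2 := by positivity
      linarith
    · rw [hf p hp, add_zero]
  have hsum : Summable (fun p : Nat.Primes => ((p : ℕ) : ℝ) ^ (-(1 + ε)) * ‖f p‖ ^ 2) :=
    Summable.of_nonneg_of_le (fun p => by positivity) hle c2.summable
  refine ⟨hsum, ?_⟩
  have d1 := hsum.tsum_le_tsum hle c2.summable
  rw [c2.tsum_eq] at d1
  have d2 : 0 ≤ ∑' q : Nat.Primes × ℕ, om ε (q.1, q.2 + 1) * ‖u (q.1, q.2 + 1)‖ ^ 2 :=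
    tsum_nonneg fun q => by have := (om_pos ε (q.1, q.2 + 1)).le; positivity
  rw [div_lt_iff₀ hL] at h1 h2
  have h7 : Real.log (1 / ε) = La ε := rfl
  rw [h7]
  rw [a3] at h1
  nlinarith

/-- the norm of a bounded vector -/
theorem norm_bdd {u : Nat.Primes × ℕ → ℂ} {A : ℝ} (h : ∀ q, ‖u q‖ ≤ A) {η : ℝ} (hη : 0 < η) :
    ∀ᶠ ε : ℝ in 𝓝[>] 0, (cip ε u u).re / La ε ≤ A ^ 2 + η := by
  have hlim : Tendsto (fun ε : ℝ => A ^ 2 * (((∑' q, om ε q) - Real.log (1 / ε)) /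
      Real.log (1 / ε) + 1)) (𝓝[>] 0) (𝓝 (A ^ 2 * (0 + 1))) :=
    ((div_log sum_om_lim).add_const 1).const_mul _
  rw [zero_add, mul_one] at hlim
  filter_upwards [hlim.eventually (gt_mem_nhds (show A ^ 2 < A ^ 2 + η by linarith)),
    self_mem_nhdsWithin, log_atTop.eventually_gt_atTop 0] with ε h2 h3 h4
  have hε : 0 < ε := h3
  have hL : 0 < La ε := h4
  refine le_trans ?_ h2.le
  rw [div_le_iff₀ hL]
  have hs := self_hasSum (sqs_bdd h) hε
  have h5 := hs.summable.tsum_le_tsum (fun q => mul_le_mul_of_nonneg_left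
    (pow_le_pow_left₀ (norm_nonneg _) (h q) 2) (om_pos ε q).le) ((summable_om hε).mul_right (A ^ 2))
  rw [hs.tsum_eq, tsum_mul_right] at h5
  have h7 : Real.log (1 / ε) = La ε := rfl
  rw [h7]
  have e1 : A ^ 2 * (((∑' q, om ε q) - La ε) / La ε + 1) * La ε = (∑' q, om ε q) * A ^ 2 := by
    field_simp
    ring
  rw [e1]
  exact h5

end Run7.h736.AU
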