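import Pool.Agent.Run7.h736.AU.Fam

/-! Motives: sizes and orders. -/

set_option autoImplicit false

open Filter Topology Complex ComplexConjugate Finset Polynomial

namespace Run7.h736.AU

open Pool.Agent.Y149.CM (LFun)
open Pool.Agent.Y149.TL (Motive IsEuler edge size HasOrder)
open Pool.Agent.Y149.PK (tens)

/-- The polynomials `B p` are the Euler factors of `L(M × π~, s)`, `π~` the contragredient: for almost all
primes `p`, `B_p(z) = ∏ (1 - α conj(β) z)`, the product over the eigenvalues `α` of Frobenius on `M` and the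
Satake parameters `β` of `π`. -/
def IsTwist (M : Motive) (S : Sys) (B : Nat.Primes → ℂ[X]) : Prop :=
  IsEuler M.weight (fun p => tens (M.frob p) ((S.ev p).map conj)) B

/-- The polynomials `D p` are the Euler factors of `L(M ⊗ M^∨, s - w)`, `w` the weight of `M`: for almost all
primes `p`, `D_p(z) = ∏ (1 - α conj(α') z)`, the product over the pairs of eigenvalues of Frobenius on
`M`; the numbers `conj(α') = p^w / α'` are the eigenvalues on the Tate twist `M^∨(-w)`. -/
def IsSquare (M : Motive) (D : Nat.Primes → ℂ[X]) : Prop :=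
  IsEuler (2 * M.weight) (fun p => tens (M.frob p) ((M.frob p).map conj)) D

theorem tens_eq (s t : Multiset ℂ) : tens s t = ten s t := rfl

/-- the number `p ^ (-w / 2)` -/
noncomputable def nrm (w : ℤ) (p : Nat.Primes) : ℂ := ((p : ℕ) : ℂ) ^ (-((w : ℂ) / 2))

theorem norm_nrm (w : ℤ) (p : Nat.Primes) : ‖nrm w p‖ = ((p : ℕ) : ℝ) ^ (-((w : ℝ) / 2)) := by
  unfold nrm
  rw [norm_cpow_prime]
  congr 2
  simp

theorem conj_nrm (w : ℤ) (p : Nat.Primes) : conj (nrm w p) = nrm w p := by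
  have hp : ((p : ℕ) : ℂ) ≠ 0 := by exact_mod_cast p.2.ne_zero
  unfold nrm
  have e : -((w : ℂ) / 2) = ((-((w : ℝ) / 2) : ℝ) : ℂ) := by push_cast; ring
  rw [e, Complex.cpow_def_of_ne_zero hp, ← Complex.exp_conj, map_mul, ← Complex.natCast_log,
    Complex.conj_ofReal, Complex.conj_ofReal]

theorem finite_bad (M : Motive) : {p : Nat.Primes | ¬ ((∀ z ∈ M.frob p, ‖z‖ =
    ((p : ℕ) : ℝ) ^ ((M.weight : ℝ) / 2)) ∧ Multiset.card (M.frob p) = M.rank)}.Finite :=
  eventually_cofinite.1 M.pure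

/-- the normalised system of a motive -/
noncomputable def msys (M : Motive) : Sys where
  bad := (finite_bad M).toFinset
  rank := M.rank
  ev := fun p => (M.frob p).map fun z => nrm M.weight p * z
  card := fun p hp => by
    rw [Set.Finite.mem_toFinset, Set.mem_ofPred_eq, not_not] at hp
    rw [Multiset.card_map, hp.2]
  bound := by
    intro p hp z hz
    rw [Set.Finite.mem_toFinset, Set.mem_ofPred_eq, not_not] at hp
    obtain ⟨y, hy, rfl⟩ := Multiset.mem_map.1 hz
    have hp1 : (1 : ℝ) < (p : ℕ) := by exact_mod_cast p.2.one_lt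
    rw [norm_mul, norm_nrm, hp.1 y hy, ← Real.rpow_add (by linarith)]
    rw [neg_add_cancel, Real.rpow_zero, Real.lt_sqrt (by norm_num)]
    simpa using hp1

theorem msys_good {M : Motive} {p : Nat.Primes} (hp : p ∉ (msys M).bad) :
    (∀ z ∈ M.frob p, ‖z‖ = ((p : ℕ) : ℝ) ^ ((M.weight : ℝ) / 2)) ∧
      Multiset.card (M.frob p) = M.rank := by
  have h1 : p ∉ (finite_bad M).toFinset := hp
  rw [Set.Finite.mem_toFinset, Set.mem_ofPred_eq, not_not] at h1
  exact h1

theorem msys_norm {M : Motive} {p : Nat.Primes} (hp : p ∉ (msys M).bad) {z : ℂ}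
    (hz : z ∈ (msys M).ev p) : ‖z‖ = 1 := by
  have h1 := msys_good hp
  obtain ⟨y, hy, rfl⟩ := Multiset.mem_map.1 hz
  have hp1 : (0 : ℝ) < (p : ℕ) := by exact_mod_cast p.2.pos
  rw [norm_mul, norm_nrm, h1.1 y hy, ← Real.rpow_add hp1, neg_add_cancel, Real.rpow_zero]

theorem tr_le_of_tempered {S : Sys} (h : ∀ p, p ∉ S.bad → ∀ z ∈ S.ev p, ‖z‖ ≤ 1)
    (q : Nat.Primes × ℕ) : ‖S.tr q‖ ≤ S.rank := by
  unfold Sys.tr
  split_ifs with h1
  · simp
  · have h2 := norm_ps_le (s := S.ev q.1) (r := 1) (h q.1 h1) (q.2 + 1)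
    rw [one_pow, mul_one, S.card q.1 h1] at h2
    exact h2

theorem msys_tr_le (M : Motive) (q : Nat.Primes × ℕ) : ‖(msys M).tr q‖ ≤ M.rank :=
  tr_le_of_tempered (S := msys M) (fun _ hp _ hz => (msys_norm hp hz).le) q

theorem msys_sqs (M : Motive) : SqS (msys M).tr := sqs_bdd (msys_tr_le M)

/-- the Euler factor -/
theorem twist_factor {M : Motive} {S : Sys} {B : Nat.Primes → ℂ[X]} {p : Nat.Primes} {τ : ℝ}
    (h : ∀ z : ℂ, (B p).eval z = ((tens (M.frob p) ((S.ev p).map conj)).map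
      fun α => 1 - α * z).prod) (ε : ℝ) :
    ((B p).eval (((p : ℕ) : ℂ) ^ (-(edge M.weight τ + ε))))⁻¹ =
      fac (msys M) (S.twist τ) p (1 + ε) := by
  have hp : ((p : ℕ) : ℂ) ≠ 0 := by exact_mod_cast p.2.ne_zero
  rw [h]
  unfold fac
  congr 1
  have e1 : ((S.twist τ).ev p).map conj =
      ((S.ev p).map conj).map fun z => ((p : ℕ) : ℂ) ^ (-((τ : ℂ) * I)) * z := by
    unfold Sys.twist
    simp only
    rw [Multiset.map_map, Multiset.map_map]
    refine Multiset.map_congr rfl fun z _ => ?_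
    simp only [Function.comp_apply, map_mul, conj_cpow_I]
  have e2 : (msys M).ev p = (M.frob p).map fun z => nrm M.weight p * z := rfl
  rw [e1, e2, ten_smul, Multiset.map_map, tens_eq]
  congr 1
  refine Multiset.map_congr rfl fun z _ => ?_
  simp only [Function.comp_apply]
  have e3 : ((p : ℕ) : ℂ) ^ (-(edge M.weight τ + (ε : ℂ))) =
      nrm M.weight p * ((p : ℕ) : ℂ) ^ (-((τ : ℂ) * I)) * ((p : ℕ) : ℂ) ^ (-(1 + (ε : ℂ))) := by
    unfold nrm
    rw [← Complex.cpow_add _ _ hp, ← Complex.cpow_add _ _ hp]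
    congr 1
    unfold edge
    ring
  rw [e3]
  ring

theorem square_factor {M : Motive} {D : Nat.Primes → ℂ[X]} {p : Nat.Primes}
    (h : ∀ z : ℂ, (D p).eval z = ((tens (M.frob p) ((M.frob p).map conj)).map
      fun α => 1 - α * z).prod) (ε : ℝ) :
    ((D p).eval (((p : ℕ) : ℂ) ^ (-(edge (2 * M.weight) 0 + ε))))⁻¹ =
      fac (msys M) (msys M) p (1 + ε) := by
  have hp : ((p : ℕ) : ℂ) ≠ 0 := by exact_mod_cast p.2.ne_zero
  rw [h]
  unfold fac
  congr 1
  have e2 : (msys M).ev p = (M.frob p).map fun z => nrm M.weight p * z := rfl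
  have e1 : ((msys M).ev p).map conj =
      ((M.frob p).map conj).map fun z => nrm M.weight p * z := by
    rw [e2, Multiset.map_map, Multiset.map_map]
    refine Multiset.map_congr rfl fun z _ => ?_
    simp only [Function.comp_apply, map_mul, conj_nrm]
  rw [e1, e2, ten_smul, Multiset.map_map, tens_eq]
  congr 1
  refine Multiset.map_congr rfl fun z _ => ?_
  simp only [Function.comp_apply]
  have e3 : ((p : ℕ) : ℂ) ^ (-(edge (2 * M.weight) 0 + (ε : ℂ))) =
      nrm M.weight p * nrm M.weight p * ((p : ℕ) : ℂ) ^ (-(1 + (ε : ℂ))) := by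
    unfold nrm
    rw [← Complex.cpow_add _ _ hp, ← Complex.cpow_add _ _ hp]
    congr 1
    unfold edge
    push_cast
    ring
  rw [e3]
  ring

/-- **The size of the twist.** -/
theorem size_twist {M : Motive} {S : Sys} (hS : SqS S.tr) {B : Nat.Primes → ℂ[X]}
    (hB : IsTwist M S B) (τ : ℝ) :
    (∀ᶠ ε : ℝ in 𝓝[>] 0, LFun B (edge M.weight τ + ε) ≠ 0) ∧
    Tendsto (fun ε : ℝ => size M.weight B τ ε - (cip ε (msys M).tr (S.twist τ).tr).re / La ε)
      (𝓝[>] 0) (𝓝 0) := by
  classical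
  have hfin := eventually_cofinite.1 hB.1
  obtain ⟨h1, c, h2⟩ := euler_link (S := msys M) (T := S.twist τ) (msys_sqs M) (twist_sqs hS τ)
    (w := M.weight) (τ := τ) (B := B) ((msys M).bad ∪ S.bad ∪ hfin.toFinset)
    (fun p hp => by
      rw [Finset.mem_union, Finset.mem_union]
      exact Or.inl (Or.inl hp))
    (fun p hp => by
      rw [Finset.mem_union, Finset.mem_union]
      exact Or.inl (Or.inr hp))
    (fun p hp ε _ => by
      rw [Finset.mem_union, not_or, Set.Finite.mem_toFinset, Set.mem_ofPred_eq, not_not] at hp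
      exact twist_factor hp.2 ε)
    (fun p => hB.2 p τ)
  refine ⟨h1, ?_⟩
  refine (div_log h2).congr fun ε => ?_
  unfold size La
  rw [sub_div]

/-- **The size of the square.** -/
theorem size_square {M : Motive} {D : Nat.Primes → ℂ[X]} (hD : IsSquare M D) :
    (∀ᶠ ε : ℝ in 𝓝[>] 0, LFun D (edge (2 * M.weight) 0 + ε) ≠ 0) ∧
    Tendsto (fun ε : ℝ => size (2 * M.weight) D 0 ε -
      (cip ε (msys M).tr (msys M).tr).re / La ε) (𝓝[>] 0) (𝓝 0) := by
  classical
  have hfin := eventually_cofinite.1 hD.1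
  obtain ⟨h1, c, h2⟩ := euler_link (S := msys M) (T := msys M) (msys_sqs M) (msys_sqs M)
    (w := 2 * M.weight) (τ := 0) (B := D) ((msys M).bad ∪ hfin.toFinset)
    (fun p hp => by
      rw [Finset.mem_union]
      exact Or.inl hp)
    (fun p hp => by
      rw [Finset.mem_union]
      exact Or.inl hp)
    (fun p hp ε _ => by
      rw [Finset.mem_union, not_or, Set.Finite.mem_toFinset, Set.mem_ofPred_eq, not_not] at hp
      exact square_factor hp.2 ε)
    (fun p => hD.2 p 0)
  refine ⟨h1, ?_⟩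
  refine (div_log h2).congr fun ε => ?_
  unfold size La
  rw [sub_div]

/-- the size of a function with an order -/
theorem size_order {w : ℤ} {B : Nat.Primes → ℂ[X]} {τ : ℝ} {r : ℤ} (h : HasOrder w B τ r) :
    Tendsto (fun ε : ℝ => size w B τ ε) (𝓝[>] 0) (𝓝 (-r)) := by
  obtain ⟨a, ha, h1⟩ := h
  have h2 := div_log (h1.norm.log (norm_ne_zero_iff.2 ha))
  have h3 := h2.add_const (-(r : ℝ))
  rw [zero_add] at h3
  refine h3.congr' ?_
  have hL : ∀ᶠ ε : ℝ in 𝓝[>] 0, 0 < Real.log (1 / ε) := log_atTop.eventually_gt_atTop 0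
  have hne : ∀ᶠ ε : ℝ in 𝓝[>] 0, (ε : ℂ) ^ (-r) * LFun B (edge w τ + ε) ≠ 0 :=
    h1.eventually_ne ha
  filter_upwards [self_mem_nhdsWithin, hL, hne] with ε h4 h5 h6
  have hε : 0 < ε := h4
  unfold size
  rw [norm_mul, Real.log_mul (norm_ne_zero_iff.2 (left_ne_zero_of_mul h6))
      (norm_ne_zero_iff.2 (right_ne_zero_of_mul h6)), norm_zpow, Complex.norm_real,
      Real.norm_eq_abs, abs_of_pos hε, Real.log_zpow]
  have e2 : Real.log (1 / ε) = - Real.log ε := by rw [one_div, Real.log_inv]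
  rw [e2] at h5 ⊢
  have h7 : Real.log ε ≠ 0 := fun h8 => by rw [h8] at h5; simp at h5
  push_cast
  field_simp
  ring

end Run7.h736.AU
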