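import Mathlib

/-! Power sums of multisets and Euler factors. -/

set_option autoImplicit false

open Filter Topology Complex ComplexConjugate

namespace Run7.h736.AU

/-- the power sum -/
noncomputable def ps (s : Multiset ℂ) (k : ℕ) : ℂ := (s.map fun z => z ^ k).sum

/-- the tensor product -/
def ten (s t : Multiset ℂ) : Multiset ℂ := (s ×ˢ t).map fun z => z.1 * z.2

theorem ps_zero (k : ℕ) : ps 0 k = 0 := by simp [ps]

theorem ps_cons (a : ℂ) (s : Multiset ℂ) (k : ℕ) : ps (a ::ₘ s) k = a ^ k + ps s k := by
  simp [ps]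

theorem ps_add (s t : Multiset ℂ) (k : ℕ) : ps (s + t) k = ps s k + ps t k := by
  simp [ps]

theorem ps_smul (a : ℂ) (s : Multiset ℂ) (k : ℕ) :
    ps (s.map fun z => a * z) k = a ^ k * ps s k := by
  unfold ps
  rw [Multiset.map_map]
  have : (s.map ((fun z => z ^ k) ∘ fun z => a * z)) = s.map fun z => a ^ k * z ^ k := by
    refine Multiset.map_congr rfl fun z _ => ?_
    simp only [Function.comp_apply, mul_pow]
  rw [this, Multiset.sum_map_mul_left]

theorem ps_conj (s : Multiset ℂ) (k : ℕ) : ps (s.map conj) k = conj (ps s k) := by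
  induction s using Multiset.induction_on with
  | empty => simp [ps]
  | cons a s ih => rw [Multiset.map_cons, ps_cons, ps_cons, ih, map_add, map_pow]

theorem ten_zero (t : Multiset ℂ) : ten 0 t = 0 := by simp [ten]

theorem ten_cons (a : ℂ) (s t : Multiset ℂ) : ten (a ::ₘ s) t = (t.map fun z => a * z) + ten s t := by
  unfold ten
  rw [Multiset.cons_product, Multiset.map_add, Multiset.map_map]
  rfl

theorem ps_ten (s t : Multiset ℂ) (k : ℕ) : ps (ten s t) k = ps s k * ps t k := by
  induction s using Multiset.induction_on with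
  | empty => rw [ten_zero, ps_zero, zero_mul]
  | cons a s ih => rw [ten_cons, ps_add, ps_smul, ih, ps_cons, add_mul]

theorem ten_smul (a b : ℂ) (s t : Multiset ℂ) :
    ten (s.map fun z => a * z) (t.map fun z => b * z) = (ten s t).map fun z => (a * b) * z := by
  induction s using Multiset.induction_on with
  | empty => simp [ten_zero]
  | cons c s ih =>
    rw [Multiset.map_cons, ten_cons, ten_cons, ih, Multiset.map_add, Multiset.map_map,
      Multiset.map_map]
    congr 1
    refine Multiset.map_congr rfl fun z _ => ?_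
    simp only [Function.comp_apply]
    ring

theorem norm_ps_le {s : Multiset ℂ} {r : ℝ} (h : ∀ z ∈ s, ‖z‖ ≤ r) (k : ℕ) :
    ‖ps s k‖ ≤ (Multiset.card s : ℝ) * r ^ k := by
  induction s using Multiset.induction_on with
  | empty => simp [ps]
  | cons a s ih =>
    have h1 := ih fun z hz => h z (Multiset.mem_cons_of_mem hz)
    have h2 : ‖a‖ ^ k ≤ r ^ k := pow_le_pow_left₀ (norm_nonneg _) (h a (Multiset.mem_cons_self _ _)) k
    rw [ps_cons, Multiset.card_cons]
    push_cast
    have h3 := norm_add_le (a ^ k) (ps s k)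
    rw [norm_pow] at h3
    nlinarith

/-- the logarithm of an Euler factor -/
theorem factor_hasSum {s : Multiset ℂ} (h : ∀ z ∈ s, ‖z‖ < 1) :
    ∃ L : ℂ, HasSum (fun k : ℕ => ps s (k + 1) / ((k : ℂ) + 1)) L ∧
      Complex.exp L = ((s.map fun z => 1 - z).prod)⁻¹ := by
  induction s using Multiset.induction_on with
  | empty =>
    refine ⟨0, ?_, by simp⟩
    simp only [ps_zero, zero_div]
    exact hasSum_zero
  | cons a s ih =>
    obtain ⟨L, h1, h2⟩ := ih fun z hz => h z (Multiset.mem_cons_of_mem hz)
    have ha := h a (Multiset.mem_cons_self _ _)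
    have hne : (1 : ℂ) - a ≠ 0 := by
      intro h0
      have : a = 1 := (sub_eq_zero.1 h0).symm
      rw [this] at ha
      simp at ha
    have h3 : HasSum (fun k : ℕ => a ^ (k + 1) / ((k : ℂ) + 1)) (-Complex.log (1 - a)) := by
      have h4 := Complex.hasSum_taylorSeries_neg_log ha
      have h5 := (hasSum_nat_add_iff' 1).2 h4
      simp only [Finset.range_one, Finset.sum_singleton, pow_zero, Nat.cast_zero, div_zero,
        sub_zero] at h5
      refine h5.congr_fun ?_ |>.trans ?_ <;> simp
    refine ⟨-Complex.log (1 - a) + L, ?_, ?_⟩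
    · refine (h3.add h1).congr_fun ?_
      intro k
      rw [ps_cons]
      ring
    · rw [Complex.exp_add, Complex.exp_neg, Complex.exp_log hne, h2, Multiset.map_cons,
        Multiset.prod_cons, mul_inv]

end Run7.h736.AU
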