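import Pool.Agent.Run7.h736.AU.Link

/-! The norm of bounded systems. -/

set_option autoImplicit false

open Filter Topology Complex ComplexConjugate Polynomial

namespace Run7.h736.AU

theorem summable_om {ε : ℝ} (hε : 0 < ε) : Summable (om ε) := by
  have h1 : Summable fun n : ℕ => (n : ℝ) ^ (-(1 + ε)) :=
    Real.summable_nat_rpow.2 (by linarith)
  have hinj : Function.Injective fun q : Nat.Primes × ℕ => (q.1 : ℕ) ^ (q.2 + 1) := by
    intro a b h
    simp only at h
    have h2 : Nat.Primes.prodNatEquiv a = Nat.Primes.prodNatEquiv b := by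
      apply Subtype.ext
      rw [Nat.Primes.coe_prodNatEquiv_apply, Nat.Primes.coe_prodNatEquiv_apply]
      exact h
    exact Nat.Primes.prodNatEquiv.injective h2
  refine Summable.of_nonneg_of_le (fun q => (om_pos ε q).le) (fun q => ?_)
    (h1.comp_injective hinj)
  have hp : (0 : ℝ) ≤ ((q.1 : ℕ) : ℝ) := Nat.cast_nonneg _
  simp only [Function.comp_apply]
  unfold om
  have e1 : (((q.1 : ℕ) ^ (q.2 + 1) : ℕ) : ℝ) ^ (-(1 + ε)) =
      ((q.1 : ℕ) : ℝ) ^ (-((q.2 + 1 : ℝ) * (1 + ε))) := by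
    push_cast
    rw [← Real.rpow_natCast, ← Real.rpow_mul hp]
    congr 1
    push_cast
    ring
  rw [e1]
  refine div_le_self (by positivity) ?_
  have : (0 : ℝ) ≤ (q.2 : ℝ) := Nat.cast_nonneg _
  linarith

/-- the trivial system -/
noncomputable def one : Sys where
  bad := ∅
  rank := 1
  ev := fun _ => {1}
  card := by simp
  bound := by
    intro p _ z hz
    rw [Multiset.mem_singleton] at hz
    rw [hz, norm_one]
    rw [Real.lt_sqrt (by norm_num)]
    have : (1 : ℝ) < (p : ℕ) := by exact_mod_cast p.2.one_lt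
    simpa using this

theorem one_tr : one.tr = fun _ => 1 := by
  funext q
  unfold Sys.tr one ps
  simp

theorem sqs_bdd {u : Nat.Primes × ℕ → ℂ} {A : ℝ} (h : ∀ q, ‖u q‖ ≤ A) : SqS u := by
  intro ε hε
  refine Summable.of_nonneg_of_le (fun q => by have := (om_pos ε q).le; positivity) (fun q => ?_)
    ((summable_om hε).mul_right (A ^ 2))
  exact mul_le_mul_of_nonneg_left (pow_le_pow_left₀ (norm_nonneg _) (h q) 2) (om_pos ε q).le

/-- the sum of the weights -/
theorem sum_om {ε : ℝ} (hε : 0 < ε) : ∑' q, om ε q = Real.log ‖riemannZeta (1 + ε)‖ := by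
  have h1 : SqS one.tr := by
    rw [one_tr]
    exact sqs_bdd (A := 1) fun q => by simp
  have h2 := log_RS h1 h1 hε
  have h3 : RS one one (1 + ε) = riemannZeta (1 + ε) := by
    have h4 : 1 < ((1 : ℂ) + (ε : ℂ)).re := by simpa using hε
    rw [← riemannZeta_eulerProduct_tprod h4]
    unfold RS
    refine tprod_congr fun p => ?_
    have : p ∉ one.bad ∪ one.bad := by simp [one]
    rw [if_neg this]
    unfold fac ten one
    simp
  rw [← h3, h2, one_tr]
  unfold cip
  have h5 := (summable_om hε).hasSum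
  have h6 : HasSum (fun q => (om ε q : ℂ) * (1 * conj (1 : ℂ))) ((∑' q, om ε q : ℝ) : ℂ) := by
    have := (Complex.hasSum_ofReal.2 h5)
    simpa using this
  rw [h6.tsum_eq, Complex.ofReal_re]

/-- the sum of the weights is asymptotic to `log (1 / ε)` -/
theorem sum_om_lim : Tendsto (fun ε : ℝ => (∑' q, om ε q) - Real.log (1 / ε)) (𝓝[>] 0) (𝓝 0) := by
  have h1 : Tendsto (fun ε : ℝ => (1 : ℂ) + (ε : ℂ)) (𝓝[>] 0) (𝓝[≠] 1) := by
    rw [tendsto_nhdsWithin_iff]
    constructor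
    · have : Continuous fun ε : ℝ => (1 : ℂ) + (ε : ℂ) := by fun_prop
      have h3 := this.tendsto 0
      rw [Complex.ofReal_zero, add_zero] at h3
      exact h3.mono_left nhdsWithin_le_nhds
    · filter_upwards [self_mem_nhdsWithin] with ε hε
      have : (ε : ℂ) ≠ 0 := by exact_mod_cast (ne_of_gt hε)
      simpa using this
  have h2 := riemannZeta_residue_one.comp h1
  have h3 := h2.norm.log (by simp)
  rw [norm_one, Real.log_one] at h3
  refine h3.congr' ?_
  filter_upwards [self_mem_nhdsWithin] with ε hε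
  have hε' : 0 < ε := hε
  have h4 : ‖riemannZeta (1 + ε)‖ ≠ 0 := by
    rw [norm_ne_zero_iff]
    apply riemannZeta_ne_zero_of_one_le_re
    simpa using hε'.le
  simp only [Function.comp_apply]
  rw [sum_om hε', add_sub_cancel_left, norm_mul, Real.log_mul (by
    rw [norm_ne_zero_iff]; exact_mod_cast hε'.ne') h4, Complex.norm_real, Real.norm_eq_abs,
    abs_of_pos hε', one_div, Real.log_inv]
  ring

/-- the prime powers contribute a bounded amount -/
theorem sum_high : ∃ C : ℝ, 0 ≤ C ∧ ∀ ε : ℝ, 0 < ε →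
    Summable (fun q : Nat.Primes × ℕ => om ε (q.1, q.2 + 1)) ∧
    ∑' q : Nat.Primes × ℕ, om ε (q.1, q.2 + 1) ≤ C := by
  have hb : ∀ (p : Nat.Primes) (k : ℕ) (ε : ℝ), 0 ≤ ε →
      om ε (p, k + 1) ≤ (1 / ((p : ℕ) : ℝ)) ^ (k + 2) := by
    intro p k ε hε
    have hp : (1 : ℝ) ≤ (p : ℕ) := by exact_mod_cast p.2.one_lt.le
    have hp0 : (0 : ℝ) < (p : ℕ) := by linarith
    rw [om_eq]
    have h1 : ((p : ℕ) : ℝ) ^ (-(1 + ε)) ≤ 1 / (p : ℕ) := by
      rw [one_div, ← Real.rpow_neg_one]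
      exact Real.rpow_le_rpow_of_exponent_le hp (by linarith)
    have h2 : (0 : ℝ) ≤ ((p : ℕ) : ℝ) ^ (-(1 + ε)) := by positivity
    have h3 := pow_le_pow_left₀ h2 h1 (k + 1 + 1)
    refine le_trans (div_le_self (by positivity) ?_) h3
    have : (0 : ℝ) ≤ (k : ℝ) := Nat.cast_nonneg _
    push_cast
    linarith
  have hsum : Summable fun q : Nat.Primes × ℕ => (1 / ((q.1 : ℕ) : ℝ)) ^ (q.2 + 2) := by
    rw [summable_prod_of_nonneg (fun q => by positivity)]
    have hg : ∀ p : Nat.Primes, HasSum (fun k : ℕ => (1 / ((p : ℕ) : ℝ)) ^ (k + 2))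
        ((1 / ((p : ℕ) : ℝ)) ^ 2 * (1 - 1 / ((p : ℕ) : ℝ))⁻¹) := by
      intro p
      have hp : (1 : ℝ) < (p : ℕ) := by exact_mod_cast p.2.one_lt
      have h1 := (hasSum_geometric_of_lt_one (r := 1 / ((p : ℕ) : ℝ)) (by positivity) (by
        rw [div_lt_one (by linarith)]; exact hp)).mul_left ((1 / ((p : ℕ) : ℝ)) ^ 2)
      refine h1.congr_fun fun k => ?_
      ring
    refine ⟨fun p => (hg p).summable, ?_⟩
    have h2 : Summable fun p : Nat.Primes => 2 * ((p : ℕ) : ℝ) ^ (-2 : ℝ) := by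
      refine Summable.mul_left _ ?_
      exact Nat.Primes.summable_rpow.2 (by norm_num)
    refine Summable.of_nonneg_of_le (fun p => tsum_nonneg fun k => by positivity) (fun p => ?_) h2
    rw [(hg p).tsum_eq]
    have hp : (2 : ℝ) ≤ (p : ℕ) := by exact_mod_cast p.2.two_le
    have h3 : 1 / ((p : ℕ) : ℝ) ≤ 1 / 2 := one_div_le_one_div_of_le (by norm_num) hp
    have h4 : (1 - 1 / ((p : ℕ) : ℝ))⁻¹ ≤ 2 := by
      rw [inv_le_comm₀ (by linarith) (by norm_num)]
      linarith
    have h5 : (1 / ((p : ℕ) : ℝ)) ^ 2 = ((p : ℕ) : ℝ) ^ (-2 : ℝ) := by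
      rw [Real.rpow_neg (by positivity), one_div, inv_pow]
      norm_num
    rw [h5, mul_comm]
    exact mul_le_mul_of_nonneg_right h4 (by positivity)
  refine ⟨∑' q : Nat.Primes × ℕ, (1 / ((q.1 : ℕ) : ℝ)) ^ (q.2 + 2),
    tsum_nonneg fun q => by positivity, fun ε hε => ?_⟩
  have h1 : Summable (fun q : Nat.Primes × ℕ => om ε (q.1, q.2 + 1)) :=
    Summable.of_nonneg_of_le (fun q => (om_pos ε _).le) (fun q => hb q.1 q.2 ε hε.le) hsum
  exact ⟨h1, h1.tsum_le_tsum (fun q => hb q.1 q.2 ε hε.le) hsum⟩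

end Run7.h736.AU
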